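import Pool.Agent.Lib.MP_cbe08d_co.Mn.Tor

/-!
An arc set with at least `d (k - 1) + 2 k` arcs in every directed cut splits into `k` dijoins when
the digraph has no clique minor of a given order, has sparse minors, lies on a given surface, has a
reachability order of dimension at most three, or has two supports with sparse minors.
-/

set_option autoImplicit false

namespace Pool.Agent.Lib.MP_cbe08d_co.Mn.All

/-- `x` reaches `y` along a directed path, possibly of length zero. -/
def Reach {V A : Type} (tail head : A → V) : V → V → Prop :=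
  Relation.ReflTransGen fun x y => ∃ a : A, tail a = x ∧ head a = y

/-- The underlying simple graph of a digraph: two different vertices are adjacent when some arc
joins them in one of the two directions. -/
def underlying {V A : Type} (tail head : A → V) : SimpleGraph V :=
  SimpleGraph.fromRel fun x y => ∃ a : A, tail a = x ∧ head a = y

/-- The branch sets of a minor: pairwise disjoint sets that induce connected (so nonempty)
subgraphs. -/
def Model {T ι : Type} (G : SimpleGraph T) (B : ι → Set T) : Prop :=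
  (∀ i, (G.induce (B i)).Connected) ∧ ∀ i j, i ≠ j → Disjoint (B i) (B j)

/-- Some edge joins the two sets. -/
def Touch {T : Type} (G : SimpleGraph T) (X Y : Set T) : Prop := ∃ x ∈ X, ∃ y ∈ Y, G.Adj x y

/-- `G` has a `K_t` minor. -/
def CliqueMinor {T : Type} (t : ℕ) (G : SimpleGraph T) : Prop :=
  ∃ B : Fin t → Set T, Model G B ∧ ∀ i j, i ≠ j → Touch G (B i) (B j)

/-- Every minor of `G` with `n + 1` vertices has at most `d n / 2` edges. -/
def Sparse {T : Type} (d : ℕ) (G : SimpleGraph T) : Prop :=
  ∀ (n : ℕ) (B : Fin (n + 1) → Set T), Model G B →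
    {p : Fin (n + 1) × Fin (n + 1) | p.1 ≠ p.2 ∧ Touch G (B p.1) (B p.2)}.ncard ≤ d * n

/-- `R` is the product order of `r` real coordinates. -/
def DimLE {V : Type} (r : ℕ) (R : V → V → Prop) : Prop :=
  ∃ c : V → Fin r → ℝ, ∀ x y, R x y ↔ c x ≤ c y

/-- A finite graph with sparse minors whose vertices carry labels in `V`, such that for every `y`
the vertices with a label `R`-below `y` induce a connected subgraph. -/
def Supported {V : Type} (d : ℕ) (R : V → V → Prop) : Prop :=
  ∃ (T : Type) (_ : Finite T) (G : SimpleGraph T) (l : T → V), Sparse d G ∧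
    ∀ y, (G.induce {τ | R (l τ) y}).Connected

/-- The number of cycles (orbits, fixed points included) of a permutation. -/
noncomputable def cycles {D : Type} (π : Equiv.Perm D) : ℕ :=
  Nat.card (Quotient (Equiv.Perm.SameCycle.setoid π))

/-- The rotation `σ` followed forwards in state `true` and backwards in state `false`. -/
def turn {D : Type} (σ : Equiv.Perm D) : Equiv.Perm (D × Bool) :=
  Equiv.prodCongrLeft fun ε => cond ε σ σ⁻¹

/-- Running along an edge: the dart (oriented edge) is reversed, and the state changes when the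
edge is twisted (`s e = true`). -/
def cross {V : Type} (G : SimpleGraph V) (s : Sym2 V → Bool) : Equiv.Perm (G.Dart × Bool) :=
  Function.Involutive.toPerm (fun x => (x.1.symm, xor x.2 (s x.1.edge))) fun x => by
    simp

/-- `G` has Euler genus at most `γ`: there is an embedding scheme, made of a rotation system `σ`
(a permutation of the darts whose cycles are the sets of darts leaving a common vertex) and a
signature `s` (the twisted edges), with `V - E + F ≥ 2 C - γ`. Here `C` is the number of
components, every face is traced twice (once in each direction) by the cycles of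
`turn σ * cross G s`, and each isolated vertex has one face; the inequality is doubled. -/
def EulerGenusLE {V : Type} (γ : ℕ) (G : SimpleGraph V) : Prop :=
  ∃ (σ : Equiv.Perm G.Dart) (s : Sym2 V → Bool), (∀ x y, σ.SameCycle x y ↔ x.fst = y.fst) ∧
    2 * G.edgeSet.ncard + 4 * Nat.card G.ConnectedComponent ≤
      2 * Nat.card V + (cycles (turn σ * cross G s) + 2 * {v | ∀ w, ¬G.Adj v w}.ncard) + 2 * γ

open Pool.Agent.Lib.MP_cbe08d_co in
theorem result :
    ∀ d k : ℕ, 0 < k →
      ∀ (V A : Type) [Finite V] [Finite A] (tail head : A → V) (J : Set A),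
        ((∃ t, 2 ^ t ≤ d ∧ ¬CliqueMinor (t + 2) (underlying tail head)) ∨
          Sparse d (underlying tail head) ∨
          (∃ γ, 6 ≤ d ∧ 6 * γ ≤ d * (d - 6) + 6 ∧ EulerGenusLE γ (underlying tail head)) ∨
          (2 ≤ d ∧ DimLE 2 (Reach tail head)) ∨ (7 ≤ d ∧ DimLE 3 (Reach tail head)) ∨
          (Supported d (Reach tail head) ∧ Supported d (Reach head tail))) →
        (∀ S : Set V, (∀ a : A, head a ∈ S → tail a ∈ S) →
            (∃ a : A, tail a ∈ S ∧ head a ∉ S) →
            d * (k - 1) + 2 * k ≤ Set.ncard {a : A | a ∈ J ∧ tail a ∈ S ∧ head a ∉ S}) →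
        ∃ c : A → Fin k, ∀ i : Fin k, ∀ S : Set V,
            (∀ a : A, head a ∈ S → tail a ∈ S) →
            (∃ a : A, tail a ∈ S ∧ head a ∉ S) →
            ∃ a : A, a ∈ J ∧ c a = i ∧ tail a ∈ S ∧ head a ∉ S := by
  intro d k hk V A _ _ tail head J h hJ
  have gr : Mn.Sp d (underlying tail head) →
      Mn.Su d (Reach tail head) ∧ Mn.Su d (Reach head tail) := fun h =>
    ⟨Mn.su_graph h fun x y e => (em _).imp_right fun k =>
      (SimpleGraph.fromRel_adj _ _ _).2 ⟨k, Or.inl e⟩,
    Mn.su_graph h fun x y ⟨a, e⟩ => (em _).imp_right fun k =>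
      (SimpleGraph.fromRel_adj _ _ _).2 ⟨k, Or.inr ⟨a, e.symm⟩⟩⟩
  have sp : ∀ {T : Type} {G : SimpleGraph T}, Sparse d G → Mn.Sp d G := fun h n B h1 h2 =>
    h n B ⟨fun i => Mn.cn_iff.2 (h1 i), h2⟩
  have su : ∀ {R : V → V → Prop}, Supported d R → Mn.Su d R := fun ⟨T, i, G, l, h1, h2⟩ =>
    ⟨T, i, G, l, sp h1, fun y => Mn.cn_iff.1 (h2 y)⟩
  have dm : ∀ {r}, DimLE r (Reach tail head) → DimLE r (Reach head tail) := fun ⟨c, hc⟩ =>
    ⟨fun x => -c x, fun x y => by rw [neg_le_neg_iff, ← hc]; exact Mn.reach_swap⟩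
  obtain ⟨s1, s2⟩ : Mn.Su d (Reach tail head) ∧ Mn.Su d (Reach head tail) := by
    obtain ⟨t, h1, h2⟩ | h | ⟨γ, h1, h2, σ, s, h3, h4⟩ | ⟨h1, h2⟩ | ⟨h1, h2⟩ | h := h
    · exact gr ((Mn.sp_of_not_hasK fun ⟨B, b1, b2, b3⟩ =>
        h2 ⟨B, ⟨fun i => Mn.cn_iff.2 (b1 i), b2⟩, b3⟩).mono h1)
    · exact gr (sp h)
    · refine gr (Mn.sp_of_eg (Sf.eg_of_scheme σ s (turn σ) (cross _ s) h3 (fun _ => rfl)
        (fun _ => rfl) (fun _ _ => rfl) h4) h1 ?_)
      obtain ⟨j, rfl⟩ := Nat.exists_eq_add_of_le h1
      rw [Nat.add_sub_cancel_left] at h2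
      nlinarith
    · exact ⟨(Mn.su_two h2.choose_spec).mono h1, (Mn.su_two (dm h2).choose_spec).mono h1⟩
    · exact ⟨(Mn.su_three h2.choose_spec).mono h1, (Mn.su_three (dm h2).choose_spec).mono h1⟩
    · exact ⟨su h.1, su h.2⟩
  exact Mn.dijoins hk tail head J s1 s2 hJ

end Pool.Agent.Lib.MP_cbe08d_co.Mn.All
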