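import Mathlib

/-! Instances: free arcs `fr` and unit arcs `h a → t a`, supported by a host graph. -/

set_option autoImplicit false

namespace Pool.Agent.Lib.MP_cbe08d_co.Mn

section
variable {T : Type} {g : SimpleGraph T} {S S' R : Set T} {x y z : T}

/-- a path inside `S` -/
def Pa (g : SimpleGraph T) (S : Set T) : T → T → Prop :=
  Relation.ReflTransGen fun p q => g.Adj p q ∧ p ∈ S ∧ q ∈ S

/-- any two points of `S` are joined inside `S` -/
def Cn (g : SimpleGraph T) (S : Set T) : Prop := ∀ x ∈ S, ∀ y ∈ S, Pa g S x y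

theorem Pa.mono (h : Pa g S x y) (hs : S ⊆ S') : Pa g S' x y :=
  Relation.ReflTransGen.mono (fun _ _ k => ⟨k.1, hs k.2.1, hs k.2.2⟩) _ _ h

theorem Pa.trans (h : Pa g S x y) (h' : Pa g S y z) : Pa g S x z :=
  Relation.ReflTransGen.trans h h'

theorem Pa.symm (h : Pa g S x y) : Pa g S y x := by
  induction h with
  | refl => exact .refl
  | tail _ e ih => exact .head ⟨e.1.symm, e.2.2, e.2.1⟩ ih

theorem Pa.exit {P : T → Prop} (h : Pa g S x y) (hx : P x) (hy : ¬P y) :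
    ∃ p q, g.Adj p q ∧ p ∈ S ∧ q ∈ S ∧ P p ∧ ¬P q := by
  induction h with
  | refl => exact absurd hx hy
  | @tail b c _ e ih =>
    by_cases hb : P b
    · exact ⟨b, c, e.1, e.2.1, e.2.2, hb, hy⟩
    · exact ih hb

theorem cn_root (h : ∀ x ∈ S, Pa g S x z) : Cn g S := fun x hx y hy =>
  (h x hx).trans (h y hy).symm

theorem cn_single (x : T) : Cn g {x} := by
  rintro _ rfl _ rfl
  exact .refl

/-- two connected sets joined by a path inside the union -/
theorem Cn.join (h : Cn g S) (h' : Cn g S') (hx : x ∈ S) (hy : y ∈ S') (p : Pa g (S ∪ S') x y) :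
    Cn g (S ∪ S') :=
  cn_root (z := y) fun w hw => hw.elim
    (fun e => ((h w e x hx).mono Set.subset_union_left).trans p)
    fun e => (h' w e y hy).mono Set.subset_union_right

theorem Cn.edge (h : Cn g S) (h' : Cn g S') (hx : x ∈ S) (hy : y ∈ S') (e : g.Adj x y) :
    Cn g (S ∪ S') :=
  h.join h' hx hy (.single ⟨e, Or.inl hx, Or.inr hy⟩)

/-- one more point next to a point of the set -/
theorem Cn.grow (h : Cn g S) (hs : S ⊆ S') (e : g.Adj x y)
    (h' : ∀ w ∈ S', w ∈ S ∨ (w = x ∧ y ∈ S)) : Cn g S' := by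
  have key : ∀ w ∈ S', ∃ w' ∈ S, Pa g S' w w' := fun w hw =>
    (h' w hw).elim (fun k => ⟨w, k, .refl⟩) fun k => ⟨y, k.2, .single ⟨k.1 ▸ e, hw, hs k.2⟩⟩
  intro p hp q hq
  obtain ⟨p', p1, p2⟩ := key p hp
  obtain ⟨q', q1, q2⟩ := key q hq
  exact (p2.trans ((h p' p1 q' q1).mono hs)).trans q2.symm

end

/-- an edge joins the two sets -/
def Tch {T : Type} (g : SimpleGraph T) (X Y : Set T) : Prop := ∃ x ∈ X, ∃ y ∈ Y, g.Adj x y

/-- every minor with `n + 1` branch sets has at most `d n` ordered adjacent pairs -/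
def Sp {T : Type} (d : ℕ) (g : SimpleGraph T) : Prop :=
  ∀ (n : ℕ) (B : Fin (n + 1) → Set T), (∀ i, (B i).Nonempty ∧ Cn g (B i)) →
    (∀ i j, i ≠ j → Disjoint (B i) (B j)) →
    {p : Fin (n + 1) × Fin (n + 1) | p.1 ≠ p.2 ∧ Tch g (B p.1) (B p.2)}.ncard ≤ d * n

/-- free arcs and unit arcs -/
structure Ins (A V : Type) where
  fr : V → V → Prop
  h : A → V
  t : A → V

namespace Ins

variable {A V W K T : Type} (I : Ins A V)

def le : V → V → Prop := Relation.ReflTransGen I.fr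

def Ideal (X : Set V) : Prop := ∀ a b, I.fr a b → b ∈ X → a ∈ X

/-- the unit arcs that enter `X` -/
def Ent (X : Set V) : Set A := {a | I.t a ∈ X ∧ I.h a ∉ X}

/-- nontrivial ideals -/
def NT (X : Set V) : Prop := I.Ideal X ∧ X.Nonempty ∧ Xᶜ.Nonempty

/-- the underlying graph -/
def G : SimpleGraph V :=
  SimpleGraph.fromRel fun x y => I.fr x y ∨ ∃ a, I.h a = x ∧ I.t a = y

def rev : Ins A V := ⟨fun x y => I.fr y x, I.t, I.h⟩

/-- the host vertices whose label lies below `y` -/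
def sh (l : T → V) (y : V) : Set T := {τ | I.le (l τ) y}

/-- the shadows of `p` and `q` are joined -/
def Lk (g : SimpleGraph T) (l : T → V) (p q : V) : Prop := Cn g (I.sh l p ∪ I.sh l q)

/-- the labelling `l` of the host graph supports the instance from below -/
structure Sup (g : SimpleGraph T) (l : T → V) : Prop where
  ne : ∀ y, (I.sh l y).Nonempty
  cn : ∀ y, Cn g (I.sh l y)
  arc : ∀ a, I.Lk g l (I.h a) (I.t a)

/-- a sparse support from below -/
def Lo (d : ℕ) : Prop :=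
  ∃ (T : Type) (_ : Finite T) (g : SimpleGraph T) (l : T → V), Sp d g ∧ I.Sup g l

/-- a sparse support from below that links `p` and `q` -/
def LoA (d : ℕ) (p q : V) : Prop :=
  ∃ (T : Type) (_ : Finite T) (g : SimpleGraph T) (l : T → V), Sp d g ∧ I.Sup g l ∧ I.Lk g l p q

def Cl (d : ℕ) : Prop := I.Lo d ∧ I.rev.Lo d

structure Hyp (g N : ℕ) : Prop where
  strong : ∀ X, I.NT X → N ≤ (I.Ent X).ncard
  loc : ∀ a, ∃ u s, I.le (I.h a) u ∧ I.le s u ∧ I.le s (I.t a)
  cl : I.Cl g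

/-- a prescribed colouring of the arcs that leave the tight filter `R` -/
structure Pre (N : ℕ) (R : Set V) (π : A → K) : Prop where
  nt : I.NT Rᶜ
  le : (I.Ent Rᶜ).ncard ≤ N
  onto : ∀ i, ∃ a ∈ I.Ent Rᶜ, π a = i

def Ok (R : Set V) (π c : A → K) (i : K) (Y : Set V) : Prop :=
  (Disjoint R Y ∧ ∀ a ∈ I.Ent Rᶜ, π a = i → I.t a ∈ Y) ∨ ∃ a ∈ I.Ent Y, c a = i ∧ I.h a ∉ R

/-- a solution for the ideals with property `S` -/
def Sol (R : Set V) (π : A → K) (S : Set V → Prop) : Prop :=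
  ∃ c : A → K, (∀ a ∈ I.Ent Rᶜ, c a = π a) ∧ ∀ i Y, I.NT Y → S Y → I.Ok R π c i Y

def EE (N : ℕ) (K : Type) : Prop :=
  ∀ (v : V) (π : A → K), I.Pre N {v} π → I.Sol {v} π fun _ => True

def map (f : V → W) : Ins A W :=
  ⟨fun x y => ∃ a b, I.fr a b ∧ f a = x ∧ f b = y, fun a => f (I.h a), fun a => f (I.t a)⟩

open Classical in
/-- new ends for the arc `a` -/
noncomputable def upd (a : A) (x y : V) : Ins A V :=
  ⟨I.fr, Function.update I.h a x, Function.update I.t a y⟩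

noncomputable def p1 : ℕ := {a | I.h a ≠ I.t a}.ncard

noncomputable def p2 : ℕ := {p : A × Set V | I.Ideal p.2 ∧ p.1 ∈ I.Ent p.2}.ncard

def Src (s : V) : Prop := ∀ z, I.fr z s → z = s

def Snk (u : V) : Prop := ∀ z, I.fr u z → z = u

/-- the arc `p q` can be added -/
def Add (d : ℕ) (p q : V) : Prop := I.LoA d p q ∧ I.rev.LoA d p q

end Ins

def IH (g N : ℕ) (A K : Type) (n : ℕ) : Prop :=
  ∀ (V : Type) [Finite V] (I : Ins A V), Nat.card V < n → I.Hyp g N → I.EE N K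

/-- a minimal counterexample -/
structure Ctx {A V K : Type} (I : Ins A V) (g N : ℕ) (v : V) (π : A → K) : Prop where
  hyp : I.Hyp g N
  pre : I.Pre N {v} π
  pos : 0 < N
  ihV : IH g N A K (Nat.card V)
  ih1 : ∀ I' : Ins A V, I'.p1 < I.p1 → I'.Hyp g N → I'.EE N K
  ih2 : ∀ I' : Ins A V, I'.p1 ≤ I.p1 → I'.p2 < I.p2 → I'.Hyp g N → I'.EE N K
  no : ¬I.Sol {v} π fun _ => True

namespace Ins

variable {A V K T : Type} {I : Ins A V} {X : Set V} {x y : V} {g : SimpleGraph T} {d N : ℕ}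

theorem Ideal.le (h : I.Ideal X) (hxy : I.le x y) (hy : y ∈ X) : x ∈ X := by
  induction hxy with
  | refl => exact hy
  | tail _ h1 ih => exact ih (h _ _ h1 hy)

theorem ideal_down (y : V) : I.Ideal {x | I.le x y} := fun _ _ h1 h2 =>
  Relation.ReflTransGen.head h1 h2

theorem Ideal.inter {Y : Set V} (h : I.Ideal X) (h' : I.Ideal Y) : I.Ideal (X ∩ Y) :=
  fun a b e hb => ⟨h a b e hb.1, h' a b e hb.2⟩

theorem Ideal.union {Y : Set V} (h : I.Ideal X) (h' : I.Ideal Y) : I.Ideal (X ∪ Y) :=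
  fun a b e hb => hb.imp (h a b e) (h' a b e)

theorem Src.eq (h : I.Src y) (hxy : I.le x y) : x = y := by
  induction hxy using Relation.ReflTransGen.head_induction_on with
  | refl => rfl
  | head h1 _ ih => exact h _ (ih ▸ h1)

theorem Snk.eq (h : I.Snk x) (hxy : I.le x y) : y = x := by
  induction hxy with
  | refl => rfl
  | tail _ h1 ih => exact h _ (ih ▸ h1)

theorem ideal_single : I.Ideal {x} ↔ I.Src x :=
  ⟨fun h z hz => h z x hz rfl, fun h a _ e hb => h a (hb ▸ e)⟩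

theorem ideal_compl_single : I.Ideal {x}ᶜ ↔ I.Snk x :=
  ⟨fun h z hz => by_contra fun hn => h x z hz hn rfl, fun h _ b e hb ha => hb (h b (ha ▸ e))⟩

theorem mem_ent_compl {a : A} : a ∈ I.Ent {x}ᶜ ↔ I.h a = x ∧ I.t a ≠ x :=
  ⟨fun h => ⟨not_not.1 h.2, h.1⟩, fun h => ⟨h.2, not_not.2 h.1⟩⟩

theorem adj_iff : I.G.Adj x y ↔ x ≠ y ∧ (I.fr x y ∨ I.fr y x ∨
    ∃ a, (I.h a = x ∧ I.t a = y) ∨ (I.h a = y ∧ I.t a = x)) := by
  rw [G, SimpleGraph.fromRel_adj, or_or_or_comm, or_assoc, exists_or]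

theorem rev_le : I.rev.le x y ↔ I.le y x := Relation.reflTransGen_swap

theorem rev_ideal : I.rev.Ideal Xᶜ ↔ I.Ideal X :=
  ⟨fun h a b e hb => by_contra fun ha => h b a e ha hb, fun h a b e hb ha => hb (h b a e ha)⟩

theorem rev_ent : I.rev.Ent Xᶜ = I.Ent X :=
  Set.ext fun _ => ⟨fun h => ⟨not_not.1 h.2, h.1⟩, fun h => ⟨h.2, not_not.2 h.1⟩⟩

theorem rev_nt : I.rev.NT Xᶜ ↔ I.NT X := by
  simp only [NT, rev_ideal, compl_compl, and_comm]

theorem rev_G : I.rev.G = I.G := by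
  ext x y
  rw [adj_iff, adj_iff, or_left_comm]
  simp only [rev, and_comm, or_comm]

theorem Hyp.rev (h : I.Hyp d N) : I.rev.Hyp d N where
  strong X hX := by
    rw [← compl_compl X] at hX ⊢
    rw [rev_ent]
    exact h.strong _ (rev_nt.1 hX)
  loc a := by
    obtain ⟨u, s, h1, h2, h3⟩ := h.loc a
    exact ⟨s, u, rev_le.2 h3, rev_le.2 h2, rev_le.2 h1⟩
  cl := ⟨h.cl.2, h.cl.1⟩

variable {l : T → V}

theorem Lk.symm (h : I.Lk g l x y) : I.Lk g l y x := by
  rwa [Lk, Set.union_comm]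

theorem sh_mono (h : I.le x y) : I.sh l x ⊆ I.sh l y := fun _ k =>
  Relation.ReflTransGen.trans k h

theorem Sup.lk_le (h : I.Sup g l) (e : I.le x y) : I.Lk g l x y := by
  rw [Lk, Set.union_eq_self_of_subset_left (sh_mono e)]
  exact h.cn y

theorem Sup.lk_adj (h : I.Sup g l) (e : I.G.Adj x y) : I.Lk g l x y := by
  obtain ⟨-, e | e | ⟨a, ⟨rfl, rfl⟩ | ⟨rfl, rfl⟩⟩⟩ := adj_iff.1 e
  exacts [h.lk_le (.single e), (h.lk_le (.single e)).symm, h.arc a, (h.arc a).symm]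

/-- a larger end keeps the link -/
theorem Sup.lk_up (h : I.Sup g l) {z : V} (e : I.le x y) (k : I.Lk g l x z) : I.Lk g l y z := by
  obtain ⟨τ, hτ⟩ := h.ne x
  have := (h.cn y).join k (sh_mono e hτ) (Or.inl hτ) .refl
  rwa [← Set.union_assoc, Set.union_eq_self_of_subset_right (sh_mono e)] at this

/-- transfer of a support along a map with linked fibres -/
theorem Sup.tr {W : Type} {J : Ins A W} (h : I.Sup g l) {f : V → W} (hf : Function.Surjective f)
    (h1 : ∀ a b, I.fr a b → J.le (f a) (f b))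
    (h2 : ∀ p q, f p = f q → Relation.ReflTransGen (fun x y => I.Lk g l x y ∧ f x = f y) p q)
    (h3 : ∀ w w', J.fr w w' → ∃ p q, f p = w ∧ f q = w' ∧ I.Lk g l p q)
    (h4 : ∀ a, ∃ p q, f p = J.h a ∧ f q = J.t a ∧ I.Lk g l p q) : J.Sup g (f ∘ l) := by
  have mono : ∀ {p q}, I.le p q → J.le (f p) (f q) := fun k => by
    induction k with
    | refl => exact .refl
    | tail _ e ih => exact Relation.ReflTransGen.trans ih (h1 _ _ e)
  have sub : ∀ {p w}, J.le (f p) w → I.sh l p ⊆ J.sh (f ∘ l) w := fun k _ e =>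
    Relation.ReflTransGen.trans (mono e) k
  have cn : ∀ w, Cn g (J.sh (f ∘ l) w) := fun w => by
    let P : V → V → Prop := fun p q => ∀ σ ∈ I.sh l p, ∀ τ ∈ I.sh l q, Pa g (J.sh (f ∘ l) w) σ τ
    have tr : ∀ {p q r}, P p q → P q r → P p r := fun {p q r} k k' σ hσ τ hτ => by
      obtain ⟨ρ, hρ⟩ := h.ne q
      exact (k σ hσ ρ hρ).trans (k' ρ hρ τ hτ)
    have lk : ∀ {p q}, I.Lk g l p q → J.le (f p) w → J.le (f q) w → P p q :=
      fun k e e' σ hσ τ hτ => (k σ (Or.inl hσ) τ (Or.inr hτ)).mono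
        (Set.union_subset (sub e) (sub e'))
    have fib : ∀ {p q}, f p = f q → J.le (f q) w → P p q := fun {p q} e e' => by
      have := h2 p q e
      induction this using Relation.ReflTransGen.head_induction_on with
      | refl => exact lk (h.lk_le .refl) e' e'
      | head k _ ih => exact tr (lk k.1 (e ▸ e') (k.2 ▸ e ▸ e')) (ih (k.2 ▸ e))
    obtain ⟨q, hq⟩ := hf w
    have key : ∀ w0, J.le w0 w → ∀ p, f p = w0 → P p q := fun w0 k => by
      induction k using Relation.ReflTransGen.head_induction_on with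
      | refl => exact fun p hp => fib (hp.trans hq.symm) (hq ▸ .refl)
      | head k k' ih =>
        obtain ⟨p', q', rfl, rfl, e⟩ := h3 _ _ k
        exact fun p hp => tr (fib hp (.head k k')) (tr (lk e (.head k k') k') (ih q' rfl))
    obtain ⟨ρ, hρ⟩ := h.ne q
    exact cn_root (z := ρ) fun σ hσ => key _ hσ (l σ) rfl σ .refl ρ hρ
  refine ⟨fun w => ?_, cn, fun a => ?_⟩
  · obtain ⟨q, rfl⟩ := hf w
    exact (h.ne q).mono (sub .refl)
  · obtain ⟨p, q, e1, e2, k⟩ := h4 a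
    obtain ⟨σ, hσ⟩ := h.ne p
    obtain ⟨τ, hτ⟩ := h.ne q
    rw [← e1, ← e2]
    exact (cn _).join (cn _) (sub .refl hσ) (sub .refl hτ)
      ((k σ (Or.inl hσ) τ (Or.inr hτ)).mono (Set.union_subset_union (sub .refl) (sub .refl)))

/-- labels can be moved down to sources -/
theorem Sup.norm [Finite T] [Finite V] (anti : ∀ x y, I.le x y → I.le y x → x = y)
    (h : I.Sup g l) : ∃ l, I.Sup g l ∧ ∀ τ, I.Src (l τ) := by
  classical
  obtain ⟨l, hl, hmin⟩ := Set.exists_min_image {l | I.Sup g l}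
    (fun l => {p : T × V | I.le p.2 (l p.1)}.ncard) (Set.toFinite _) ⟨l, h⟩
  have hl : I.Sup g l := hl
  refine ⟨l, hl, fun τ z hz => by_contra fun hne => ?_⟩
  obtain ⟨ρ, hρ⟩ := hl.ne z
  obtain ⟨p, q, e, -, q1, p2, q2⟩ := (hl.cn (l τ) τ .refl ρ (sh_mono (.single hz) hρ)).exit
    (P := fun σ => l σ = l τ) rfl fun k => hne (anti _ _ (.single hz) (k ▸ hρ))
  have q3 : I.le (l q) (l p) := p2 ▸ q1
  have s1 : ∀ y, I.sh l y ⊆ I.sh (Function.update l p (l q)) y := fun y σ k => by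
    by_cases e : σ = p
    · subst e
      simp only [sh, Set.mem_ofPred_eq, Function.update_self]
      exact Relation.ReflTransGen.trans q3 k
    · simpa only [sh, Set.mem_ofPred_eq, Function.update_of_ne e] using k
  have s2 : ∀ y, ∀ σ ∈ I.sh (Function.update l p (l q)) y,
      σ ∈ I.sh l y ∨ (σ = p ∧ q ∈ I.sh l y) := fun y σ k => by
    by_cases e : σ = p
    · subst e
      exact Or.inr ⟨rfl, by simpa only [sh, Set.mem_ofPred_eq, Function.update_self] using k⟩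
    · exact Or.inl (by simpa only [sh, Set.mem_ofPred_eq, Function.update_of_ne e] using k)
  refine absurd (hmin (Function.update l p (l q)) ⟨fun y => (hl.ne y).mono (s1 y),
    fun y => (hl.cn y).grow (s1 y) e (s2 y), fun a => (hl.arc a).grow
      (Set.union_subset_union (s1 _) (s1 _)) e fun σ k => ?_⟩) (not_le.2 (Set.ncard_lt_ncard ⟨?_, ?_⟩))
  · rcases k with k | k
    · exact (s2 _ σ k).imp Or.inl (And.imp_right Or.inl)
    · exact (s2 _ σ k).imp Or.inr (And.imp_right Or.inr)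
  · rintro ⟨σ, y⟩ k
    by_cases e : σ = p
    · subst e
      simp only [Set.mem_ofPred_eq, Function.update_self] at k
      exact Relation.ReflTransGen.trans k q3
    · simpa only [Set.mem_ofPred_eq, Function.update_of_ne e] using k
  · intro k
    have := k (show (p, l p) ∈ _ from Relation.ReflTransGen.refl)
    simp only [Set.mem_ofPred_eq, Function.update_self] at this
    exact q2 (p2 ▸ anti _ _ q3 this)

/-- two linked sources have neighbouring cells -/
theorem Sup.cells (h : I.Sup g l) (hx : I.Src x) (hy : I.Src y) (hne : x ≠ y)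
    (k : I.Lk g l x y) : ∃ σ τ, g.Adj σ τ ∧ l σ = x ∧ l τ = y := by
  obtain ⟨σ, hσ⟩ := h.ne x
  obtain ⟨τ, hτ⟩ := h.ne y
  obtain ⟨p, q, e, -, q1, p2, q2⟩ := (k σ (Or.inl hσ) τ (Or.inr hτ)).exit
    (P := fun σ => l σ = x) (hx.eq hσ) fun k => hne (k.symm.trans (hy.eq hτ))
  exact ⟨p, q, e, p2, q1.elim (fun k => absurd (hx.eq k) q2) hy.eq⟩

/-- the target of a slide of an arc `m → s` -/
theorem Sup.slide (h : I.Sup g l) (hl : ∀ τ, I.Src (l τ)) {m s z : V} (hs : I.Src s)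
    (hm : ¬I.Src m) (k : I.Lk g l m s) (hz : I.fr z m) (h1 : z ≠ m) (h2 : z ≠ s) :
    ∃ x, I.le x m ∧ x ≠ m ∧ x ≠ s ∧ I.Lk g l x s := by
  by_cases hall : ∀ τ ∈ I.sh l m, l τ = s
  · refine ⟨z, .single hz, h1, h2, ?_⟩
    rw [Lk, Set.union_eq_self_of_subset_left]
    · exact h.cn s
    · exact fun τ hτ => show I.le _ _ from hall τ (sh_mono (.single hz) hτ) ▸ .refl
  · simp only [not_forall] at hall
    obtain ⟨τ, hτ, hne⟩ := hall
    obtain ⟨σ, hσ⟩ := h.ne s
    obtain ⟨p, q, e, -, q1, p2, q2⟩ := (k σ (Or.inr hσ) τ (Or.inl hτ)).exit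
      (P := fun σ => l σ = s) (hs.eq hσ) hne
    exact ⟨l q, q1.resolve_right fun k => q2 (hs.eq k), fun k => hm (k ▸ hl q), q2,
      (h.cn _).edge (h.cn _) (x := q) (y := p) .refl (show I.le _ _ from p2 ▸ .refl) e.symm⟩

theorem LoA.symm (h : I.LoA d x y) : I.LoA d y x :=
  let ⟨T, i, g, l, h1, h2, h3⟩ := h
  ⟨T, i, g, l, h1, h2, h3.symm⟩

theorem Lo.le (h : I.Lo d) (e : I.le x y) : I.LoA d x y :=
  let ⟨T, i, g, l, h1, h2⟩ := h
  ⟨T, i, g, l, h1, h2, h2.lk_le e⟩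

theorem Add.symm (h : I.Add d x y) : I.Add d y x := ⟨h.1.symm, h.2.symm⟩

theorem add_le (h : I.Cl d) (e : I.le x y) : I.Add d x y :=
  ⟨h.1.le e, (h.2.le (rev_le.2 e)).symm⟩

end Ins

end Pool.Agent.Lib.MP_cbe08d_co.Mn
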