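import Pool.Agent.Lib.MP_cbe08d_co.Mn.Mader
import Pool.Agent.Lib.MP_cbe08d_co.Sf.Ctr
import Pool.Agent.Lib.MP_cbe08d_co.Sf.Sch

/-! Supports: the underlying graph, surfaces, and grids for orders of dimension two and three. -/

set_option autoImplicit false

namespace Pool.Agent.Lib.MP_cbe08d_co.Mn

open Equiv Pool.Agent.Lib.MP_77dff5_pr

variable {V T : Type} {d : ℕ}

/-- the underlying graph is a support -/
theorem su_graph [Finite V] {g : SimpleGraph V} (h : Sp d g) {r : V → V → Prop}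
    (hr : ∀ x y, r x y → x = y ∨ g.Adj x y) : Su d (Relation.ReflTransGen r) := by
  refine ⟨V, inferInstance, g, id, h, fun y => ⟨⟨y, .refl⟩, cn_root (z := y) fun x hx => ?_⟩⟩
  replace hx : Relation.ReflTransGen r x y := hx
  induction hx using Relation.ReflTransGen.head_induction_on with
  | refl => exact .refl
  | head e k ih =>
    rcases hr _ _ e with rfl | e'
    exacts [ih, .head ⟨e', .head e k, k⟩ ih]

theorem sp_of_eg [Finite T] {g : SimpleGraph T} {γ : ℕ} (h : Sf.EG γ g) (h6 : 6 ≤ d)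
    (hd : 6 * γ + 6 * d ≤ d * d + 6) : Sp d g := by
  intro n B h1 h2
  rcases lt_or_ge n d with hn | hn
  · refine le_trans (fib_le _ Prod.fst Set.univ n (fun _ _ => trivial) fun i => ?_) ?_
    · have := Set.ncard_add_ncard_compl ({i} : Set (Fin (n + 1)))
      rw [Set.ncard_singleton, Nat.card_fin] at this
      refine le_trans ?_ (show ({i}ᶜ : Set (Fin (n + 1))).ncard ≤ n by omega)
      exact Set.ncard_le_ncard_of_injOn Prod.snd (fun p hp => (hp.2 ▸ hp.1.1).symm)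
        fun p hp q hq e => Prod.ext (hp.2.trans hq.2.symm) e
    · rw [Set.ncard_univ, Nat.card_fin, mul_comm]
      exact Nat.mul_le_mul_right _ hn
  choose f hf using fun x : {x // ∃ i, x ∈ B i} => x.2
  have fe : ∀ x i, x.1 ∈ B i → f x = i := fun x i hx =>
    by_contra fun e => Set.disjoint_left.1 (h2 _ _ e) (hf x) hx
  let H : SimpleGraph (Fin (n + 1)) := ⟨fun i j => i ≠ j ∧ Tch g (B i) (B j),
    ⟨fun _ _ ⟨e, a, ha, b, hb, e'⟩ => ⟨e.symm, b, hb, a, ha, e'.symm⟩⟩, ⟨fun _ e => e.1 rfl⟩⟩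
  have k := ((h.comap (G := g.comap Subtype.val) Subtype.val Subtype.val_injective
    fun _ _ e => e).contract f (fun a b e => Relation.ReflTransGen.mono
      (fun p q k => ⟨k.1, (fe p _ k.2.1).trans (fe q _ k.2.2).symm⟩) _ _
      ((h1 (f b)).2.sub (fun x hx => ⟨_, hx⟩) a (e ▸ hf a) b (hf b))) (H := H)
    fun p q ⟨_, a, ha, b, hb, e⟩ => ⟨⟨a, p, ha⟩, ⟨b, q, hb⟩, e, fe _ _ ha, fe _ _ hb⟩).darts
    (by rw [Nat.card_fin]; omega)
  have k' : {p : Fin (n + 1) × Fin (n + 1) | p.1 ≠ p.2 ∧ Tch g (B p.1) (B p.2)}.ncard ≤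
      Nat.card H.Dart := by
    rw [← Set.ncard_univ]
    refine le_trans (Set.ncard_le_ncard ?_) (Set.ncard_image_le (f := fun e : H.Dart => e.toProd))
    exact fun p hp => ⟨⟨p, hp⟩, trivial, rfl⟩
  rw [Nat.card_fin] at k
  obtain ⟨j, rfl⟩ := Nat.exists_eq_add_of_le h6
  have := Nat.mul_le_mul_left j hn
  nlinarith

/-- the grid -/
def grid : SimpleGraph (ℕ × ℕ) :=
  SimpleGraph.fromRel fun u w => w = (u.1 + 1, u.2) ∨ w = (u.1, u.2 + 1)

theorem grid_path {S : Set (ℕ × ℕ)} {u w : ℕ × ℕ} (h : u ≤ w) (hS : ∀ z, u ≤ z → z ≤ w → z ∈ S) :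
    Pa grid S u w := by
  obtain ⟨a, b⟩ := u
  obtain ⟨a', b'⟩ := w
  obtain ⟨i, rfl⟩ := Nat.exists_eq_add_of_le (show a ≤ a' from h.1)
  obtain ⟨j, rfl⟩ := Nat.exists_eq_add_of_le (show b ≤ b' from h.2)
  clear h
  induction j with
  | zero =>
    induction i with
    | zero => exact .refl
    | succ i ih =>
      exact (ih fun z h1 h2 => hS z h1 (h2.trans ⟨Nat.le_succ _, le_rfl⟩)).tail
        ⟨(SimpleGraph.fromRel_adj _ _ _).2 ⟨by simp, .inl (.inl rfl)⟩,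
          hS _ ⟨Nat.le_add_right _ _, le_rfl⟩ ⟨Nat.le_succ _, le_rfl⟩,
          hS _ ⟨Nat.le_add_right _ _, le_rfl⟩ le_rfl⟩
  | succ j ih =>
    exact (ih fun z h1 h2 => hS z h1 (h2.trans ⟨le_rfl, Nat.le_succ _⟩)).tail
      ⟨(SimpleGraph.fromRel_adj _ _ _).2 ⟨by simp, .inl (.inr rfl)⟩,
        hS _ ⟨Nat.le_add_right _ _, Nat.le_add_right _ _⟩ ⟨le_rfl, Nat.le_succ _⟩,
        hS _ ⟨Nat.le_add_right _ _, Nat.le_add_right _ _⟩ le_rfl⟩

/-- each grid point is labelled by the lowest point of the order in its quadrant -/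
theorem su_grid [Finite V] {R : V → V → Prop} {p q : V → ℕ} {s : V → ℝ} {m m' : ℕ}
    (hp : ∀ x, p x < m) (hq : ∀ x, q x < m')
    (hR : ∀ x y, R x y ↔ p x ≤ p y ∧ q x ≤ q y ∧ s x ≤ s y)
    (h : Sp d (grid.comap (Subtype.val : {u : ℕ × ℕ // u.1 < m ∧ u.2 < m'} → ℕ × ℕ))) :
    Su d R := by
  obtain ⟨e, he⟩ := Countable.exists_injective_nat V
  let P : ℕ × ℕ → Prop := fun u => (u.1 < m ∧ u.2 < m') ∧ ∃ x, (p x, q x) ≤ u
  have ex : ∀ u : {u // P u}, ∃ x, (p x, q x) ≤ u.1 ∧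
      ∀ y, (p y, q y) ≤ u.1 → toLex (s x, e x) ≤ toLex (s y, e y) := fun u =>
    Set.exists_min_image {x | (p x, q x) ≤ u.1} (fun x => toLex (s x, e x)) (Set.toFinite _) u.2.2
  choose l l1 l2 using ex
  have l3 : ∀ u y, (p y, q y) ≤ u.1 → s (l u) ≤ s y := fun u y k =>
    Prod.Lex.monotone_fst _ _ (l2 u y k)
  have : Finite {u : ℕ × ℕ // u.1 < m ∧ u.2 < m'} :=
    ((Set.finite_lt_nat m).prod (Set.finite_lt_nat m')).to_subtype
  let j : {u // P u} → {u : ℕ × ℕ // u.1 < m ∧ u.2 < m'} := fun u => ⟨u.1, u.2.1⟩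
  have hj : Function.Injective j := fun _ _ k => Subtype.ext (congrArg (fun z => z.1) k)
  refine ⟨{u // P u}, Finite.of_injective j hj, _, l, h.comap hj, fun y => ?_⟩
  have r0 : P (p y, q y) := ⟨⟨hp y, hq y⟩, y, le_rfl⟩
  have up : ∀ x, R x y → ∀ z, (p x, q x) ≤ z → z ≤ (p y, q y) → ∃ k : P z, R (l ⟨z, k⟩) y :=
    fun x hx z h1 h2 => by
      have k : P z := ⟨⟨h2.1.trans_lt (hp y), h2.2.trans_lt (hq y)⟩, x, h1⟩
      exact ⟨k, (hR _ _).2 ⟨(l1 ⟨z, k⟩).1.trans h2.1, (l1 ⟨z, k⟩).2.trans h2.2,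
        (l3 ⟨z, k⟩ x h1).trans ((hR _ _).1 hx).2.2⟩⟩
  have ry : R y y := (hR _ _).2 ⟨le_rfl, le_rfl, le_rfl⟩
  have cn : Cn grid {z | ∃ k : P z, R (l ⟨z, k⟩) y} := cn_root (z := (p y, q y)) fun u ⟨k, hu⟩ => by
    refine (grid_path (l1 ⟨u, k⟩) fun z h1 h2 => ?_).symm.trans
      (grid_path ⟨((hR _ _).1 hu).1, ((hR _ _).1 hu).2.1⟩ (up _ hu))
    have k' : P z := ⟨⟨h2.1.trans_lt k.1.1, h2.2.trans_lt k.1.2⟩, _, h1⟩
    have := (l2 ⟨z, k'⟩ _ h1).antisymm (l2 ⟨u, k⟩ _ ((l1 ⟨z, k'⟩).trans h2))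
    exact ⟨k', he (congrArg (fun t => (ofLex t).2) this) ▸ hu⟩
  refine ⟨⟨⟨_, r0⟩, (up y ry _ le_rfl le_rfl).2⟩, ?_⟩
  have := cn.sub (P := P) fun _ k => k.1
  rwa [show Subtype.val ⁻¹' {z | ∃ k : P z, R (l ⟨z, k⟩) y} = {τ | R (l τ) y} from
    Set.ext fun τ => ⟨fun k => k.2, fun k => ⟨τ.2, k⟩⟩] at this

theorem exists_rank [Finite V] (s : V → ℝ) :
    ∃ p : V → ℕ, (∀ x, p x < Nat.card V) ∧ ∀ x y, p x ≤ p y ↔ s x ≤ s y := by
  refine ⟨fun x => {z | s z < s x}.ncard, fun x => ?_, fun x y => ⟨fun h => ?_, fun h =>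
    Set.ncard_le_ncard fun z hz => lt_of_lt_of_le hz h⟩⟩
  · rw [← Set.ncard_univ]
    exact Set.ncard_lt_ncard ⟨Set.subset_univ _, fun k => lt_irrefl (s x) (k (Set.mem_univ x))⟩
  · exact not_lt.1 fun k => absurd h (not_le.2 (Set.ncard_lt_ncard
      ⟨fun z hz => lt_trans hz k, fun k' => lt_irrefl (s y) (k' (show y ∈ _ from k))⟩))

/-- a path has no triangle minor -/
theorem sp_row (m : ℕ) :
    Sp 2 (grid.comap (Subtype.val : {u : ℕ × ℕ // u.1 < m ∧ u.2 < 1} → ℕ × ℕ)) := by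
  refine sp_of_not_hasK (t := 1) fun ⟨B, h1, h2, h3⟩ => ?_
  choose b hb using fun i => (h1 i).1
  have key : ∀ i j k, i ≠ j → k ≠ j → i ≠ k → (b i).1.1 ≤ (b j).1.1 → (b j).1.1 ≤ (b k).1.1 →
      False := fun i j k e1 e2 e3 l1 l2 => by
    obtain ⟨x, hx, y, hy, e⟩ := h3 i k e3
    have mem : ∀ z ∈ B i ∪ B k, z.1.1 ≠ (b j).1.1 := fun z hz e' => by
      obtain rfl : z = b j := Subtype.ext (Prod.ext e' (by have := z.2.2; have := (b j).2.2; omega))
      exact hz.elim (fun k => Set.disjoint_left.1 (h2 _ _ e1) k (hb j))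
        fun k => Set.disjoint_left.1 (h2 _ _ e2) k (hb j)
    obtain ⟨u, w, a1, -, a3, a4, a5⟩ := (((h1 i).2.edge (h1 k).2 hx hy e) _ (Or.inl (hb i)) _
      (Or.inr (hb k))).exit (P := fun z => z.1.1 < (b j).1.1)
      (lt_of_le_of_ne l1 (mem _ (Or.inl (hb i)))) (not_lt.2 l2)
    have := mem w a3
    replace a1 : grid.Adj u.1 w.1 := a1
    obtain ⟨-, (a | a) | a | a⟩ := (SimpleGraph.fromRel_adj _ _ _).1 a1 <;>
      have := congrArg Prod.fst a <;> simp only at this <;> omega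
  rcases le_total (b 0).1.1 (b 1).1.1 with a | a <;>
    rcases le_total (b 1).1.1 (b 2).1.1 with a' | a' <;>
    rcases le_total (b 0).1.1 (b 2).1.1 with a'' | a''
  all_goals first
    | exact key 0 1 2 (by decide) (by decide) (by decide) ‹_› ‹_›
    | exact key 0 2 1 (by decide) (by decide) (by decide) ‹_› ‹_›
    | exact key 1 0 2 (by decide) (by decide) (by decide) ‹_› ‹_›
    | exact key 1 2 0 (by decide) (by decide) (by decide) ‹_› ‹_›
    | exact key 2 0 1 (by decide) (by decide) (by decide) ‹_› ‹_›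
    | exact key 2 1 0 (by decide) (by decide) (by decide) ‹_› ‹_›

theorem su_two [Finite V] {R : V → V → Prop} {c : V → Fin 2 → ℝ} (h : ∀ x y, R x y ↔ c x ≤ c y) :
    Su 2 R := by
  obtain ⟨p, p1, p2⟩ := exists_rank fun x => c x 0
  exact su_grid (q := fun _ => 0) (s := fun x => c x 1) p1 (fun _ => Nat.one_pos)
    (fun x y => by rw [h, p2, Pi.le_def, Fin.forall_fin_two]; simp) (sp_row _)

theorem Su.mono {R : V → V → Prop} {d' : ℕ} (h : Su d R) (hd : d ≤ d') : Su d' R :=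
  let ⟨T, i, g, l, h1, h2⟩ := h
  ⟨T, i, g, l, h1.mono hd, h2⟩

end Pool.Agent.Lib.MP_cbe08d_co.Mn
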