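import Pool.Agent.Lib.MP_cbe08d_co.Mn.Main

/-! Digraphs: one instance for each weak component. -/

set_option autoImplicit false

namespace Pool.Agent.Lib.MP_cbe08d_co.Mn

open Ins

/-- a sparse support of the relation `R` -/
def Su {V : Type} (d : ℕ) (R : V → V → Prop) : Prop :=
  ∃ (T : Type) (_ : Finite T) (g : SimpleGraph T) (l : T → V), Sp d g ∧
    ∀ y, {τ | R (l τ) y}.Nonempty ∧ Cn g {τ | R (l τ) y}

theorem Cn.image {T T' : Type} {g : SimpleGraph T} {f : T' → T} {S : Set T'}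
    (h : Cn (g.comap f) S) : Cn g (f '' S) := by
  rintro _ ⟨x, hx, rfl⟩ _ ⟨y, hy, rfl⟩
  exact Relation.ReflTransGen.lift f (fun p q k => ⟨k.1, ⟨p, k.2.1, rfl⟩, q, k.2.2, rfl⟩) _ _
    (h x hx y hy)

theorem Cn.sub {T : Type} {g : SimpleGraph T} {P : T → Prop} {S : Set T} (h : Cn g S)
    (hS : ∀ x ∈ S, P x) : Cn (g.comap (Subtype.val : {x // P x} → T)) (Subtype.val ⁻¹' S) := by
  rintro ⟨x, hx'⟩ hx ⟨y, hy'⟩ hy
  have : Pa g S x y := h x hx y hy
  clear hy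
  induction this with
  | refl => exact .refl
  | tail _ e ih => exact (ih (hS _ e.2.1)).tail e

theorem Sp.comap {T T' : Type} {g : SimpleGraph T} {d : ℕ} (h : Sp d g) {f : T' → T}
    (hf : Function.Injective f) : Sp d (g.comap f) := fun n B h1 h2 =>
  le_trans (Set.ncard_le_ncard (t := {p | p.1 ≠ p.2 ∧ Tch g (f '' B p.1) (f '' B p.2)})
    fun _ ⟨k, x, hx, y, hy, e⟩ => ⟨k, f x, ⟨x, hx, rfl⟩, f y, ⟨y, hy, rfl⟩, e⟩)
    (h n (fun i => f '' B i) (fun i => ⟨(h1 i).1.image f, (h1 i).2.image⟩)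
      fun i j e => (Set.disjoint_image_iff hf).2 (h2 i j e))

/-- restriction of a support to a closed set of vertices -/
theorem Su.lo {V A : Type} {d : ℕ} {r : V → V → Prop} (h : Su d (Relation.ReflTransGen r))
    {P : V → Prop} (hP : ∀ x y, r x y → (P x ↔ P y)) {I : Ins A {x // P x}}
    (hI : ∀ x y, I.fr x y ↔ r x.1 y.1)
    (ha : ∀ a, I.le (I.h a) (I.t a) ∨ I.le (I.t a) (I.h a)) : I.Lo d := by
  obtain ⟨T, _, g, l, h1, h2⟩ := h
  have k1 : ∀ {x y}, Relation.ReflTransGen r x y → P y → P x := fun k hy => by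
    induction k with
    | refl => exact hy
    | tail _ e ih => exact ih ((hP _ _ e).2 hy)
  have k2 : ∀ x y, I.le x y ↔ Relation.ReflTransGen r x.1 y.1 := fun x y => by
    refine ⟨Relation.ReflTransGen.lift Subtype.val (fun p q => (hI p q).1) _ _, fun k => ?_⟩
    obtain ⟨y, hy⟩ := y
    replace k : Relation.ReflTransGen r x.1 y := k
    induction k with
    | refl => exact .refl
    | tail _ e ih => exact (ih ((hP _ _ e).2 hy)).tail ((hI _ _).2 e)
  have k3 : ∀ y, I.sh (fun τ : {τ // P (l τ)} => ⟨l τ.1, τ.2⟩) y =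
      Subtype.val ⁻¹' {τ | Relation.ReflTransGen r (l τ) y.1} := fun y => Set.ext fun _ => k2 _ _
  have cn : ∀ y, Cn (g.comap Subtype.val) (I.sh (fun τ : {τ // P (l τ)} => ⟨l τ.1, τ.2⟩) y) :=
    fun y => k3 y ▸ (h2 y.1).2.sub fun _ k => k1 k y.2
  refine ⟨{τ // P (l τ)}, inferInstance, g.comap Subtype.val, fun τ => ⟨l τ.1, τ.2⟩,
    h1.comap Subtype.val_injective, fun y => ?_, cn, fun a => ?_⟩
  · obtain ⟨τ, hτ⟩ := (h2 y.1).1
    exact ⟨⟨τ, k1 hτ y.2⟩, (k2 _ _).2 hτ⟩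
  · rcases ha a with e | e
    · rw [Lk, Set.union_eq_self_of_subset_left (sh_mono e)]
      exact cn _
    · rw [Lk, Set.union_eq_self_of_subset_right (sh_mono e)]
      exact cn _

theorem dijoins {V A : Type} [Finite V] [Finite A] {g k : ℕ} (hk : 0 < k) (tail head : A → V)
    (J : Set A) (s1 : Su g (Relation.ReflTransGen fun x y => ∃ a, tail a = x ∧ head a = y))
    (s2 : Su g (Relation.ReflTransGen fun x y => ∃ a, head a = x ∧ tail a = y))
    (hJ : ∀ S : Set V, (∀ a, head a ∈ S → tail a ∈ S) → (∃ a, tail a ∈ S ∧ head a ∉ S) →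
      g * (k - 1) + 2 * k ≤ {a | a ∈ J ∧ tail a ∈ S ∧ head a ∉ S}.ncard) :
    ∃ c : A → Fin k, ∀ (i : Fin k) (S : Set V), (∀ a, head a ∈ S → tail a ∈ S) →
      (∃ a, tail a ∈ S ∧ head a ∉ S) → ∃ a, a ∈ J ∧ c a = i ∧ tail a ∈ S ∧ head a ∉ S := by
  classical
  set G := SimpleGraph.fromRel fun x y => ∃ a, tail a = x ∧ head a = y with hGd
  have ht : ∀ a, G.connectedComponentMk (tail a) = G.connectedComponentMk (head a) := fun a => by
    by_cases e : tail a = head a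
    · rw [e]
    · exact SimpleGraph.ConnectedComponent.connectedComponentMk_eq_of_adj
        ((SimpleGraph.fromRel_adj _ _ _).2 ⟨e, Or.inl ⟨a, rfl, rfl⟩⟩)
  have : Nonempty (Fin k) := ⟨⟨0, hk⟩⟩
  suffices H : ∀ Q : G.ConnectedComponent, ∃ c : A → Fin k, ∀ (i : Fin k) (S : Set V),
      (∀ a, head a ∈ S → tail a ∈ S) →
      (∃ a, G.connectedComponentMk (tail a) = Q ∧ tail a ∈ S ∧ head a ∉ S) →
      ∃ a, G.connectedComponentMk (tail a) = Q ∧ a ∈ J ∧ c a = i ∧ tail a ∈ S ∧ head a ∉ S by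
    choose c hc using H
    refine ⟨fun a => c (G.connectedComponentMk (tail a)) a, fun i S hS ⟨a, ha⟩ => ?_⟩
    obtain ⟨b, b1, b2, b3, b4⟩ := hc _ i S hS ⟨a, rfl, ha⟩
    exact ⟨b, b2, by simpa only [b1] using b3, b4⟩
  intro Q
  obtain ⟨x0, hx0⟩ := Q.exists_rep
  let W := {x // G.connectedComponentMk x = Q}
  let P : A → Prop := fun a => a ∈ J ∧ G.connectedComponentMk (tail a) = Q
  let I : Ins A W := ⟨fun x y => ∃ a, tail a = x.1 ∧ head a = y.1,
    fun a => if h : P a then ⟨head a, (ht a).symm.trans h.2⟩ else ⟨x0, hx0⟩,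
    fun a => if h : P a then ⟨tail a, h.2⟩ else ⟨x0, hx0⟩⟩
  have arc : ∀ a, I.h a = I.t a ∨ (P a ∧ (I.h a).1 = head a ∧ (I.t a).1 = tail a) := fun a => by
    by_cases h : P a
    · exact Or.inr ⟨h, by simp only [I, dif_pos h], by simp only [I, dif_pos h]⟩
    · exact Or.inl (by simp only [I, dif_neg h])
  have vt : ∀ a, I.le (I.t a) (I.h a) := fun a => by
    obtain e | ⟨-, e1, e2⟩ := arc a
    · exact e ▸ .refl
    · exact .single ⟨a, e2.symm, e1.symm⟩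
  have hI : I.Hyp g (g * (k - 1) + 2 * k) := by
    refine ⟨fun X hX => ?_, fun a => ⟨_, _, .refl, vt a, .refl⟩,
      s1.lo ?_ (fun _ _ => Iff.rfl) fun a => Or.inr (vt a),
      s2.lo ?_ (fun _ _ => exists_congr fun _ => and_comm) fun a => Or.inr (rev_le.2 (vt a))⟩
    · have cl : ∀ a, head a ∈ Subtype.val '' X → tail a ∈ Subtype.val '' X := by
        rintro a ⟨y, hy, e⟩
        exact ⟨⟨tail a, (ht a).trans (e ▸ y.2)⟩, hX.1 _ y ⟨a, rfl, e.symm⟩ hy, rfl⟩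
      refine (hJ _ cl ?_).trans (Set.ncard_le_ncard ?_)
      · by_contra hn
        obtain ⟨x, hx⟩ := hX.2.1
        obtain ⟨y, hy⟩ := hX.2.2
        have key : ∀ z, Relation.ReflTransGen G.Adj x.1 z → z ∈ Subtype.val '' X := fun z hz => by
          induction hz with
          | refl => exact ⟨x, hx, rfl⟩
          | tail _ h ih =>
            obtain ⟨-, ⟨a, rfl, rfl⟩ | ⟨a, rfl, rfl⟩⟩ := (SimpleGraph.fromRel_adj _ _ _).1 h
            · exact by_contra fun e => hn ⟨a, ih, e⟩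
            · exact cl a ih
        obtain ⟨z, hz, e⟩ := key y.1 ((SimpleGraph.reachable_iff_reflTransGen _ _).1
          (SimpleGraph.ConnectedComponent.exact (x.2.trans y.2.symm)))
        exact hy (Subtype.ext e ▸ hz)
      · rintro a ⟨a1, ⟨x, hx, e⟩, a3⟩
        have h : P a := ⟨a1, e ▸ x.2⟩
        simp only [Ent, I, dif_pos h, Set.mem_ofPred_eq]
        exact ⟨by simpa only [← e] using hx, fun h' => a3 ⟨_, h', rfl⟩⟩
    · rintro _ _ ⟨a, rfl, rfl⟩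
      rw [ht a]
    · rintro _ _ ⟨a, rfl, rfl⟩
      rw [ht a]
  obtain ⟨c, hc⟩ := plain (K := Fin k) (fun N' h => main (by rwa [Nat.card_fin]) _) hI (by
    rw [Nat.card_fin]
    omega)
  refine ⟨c, fun i S hS ⟨a, a1, a2, a3⟩ => ?_⟩
  obtain ⟨b, ⟨b1, b2⟩, b3⟩ := hc i (Subtype.val ⁻¹' S) ⟨fun x y ⟨e, e1, e2⟩ hy =>
    show x.1 ∈ S from e1 ▸ hS e (e2 ▸ hy), ⟨⟨_, a1⟩, a2⟩, ⟨⟨_, (ht a).symm.trans a1⟩, a3⟩⟩
  obtain ⟨p, e1, e2⟩ := (arc b).resolve_left fun e => b2 (e ▸ b1)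
  exact ⟨b, p.2, p.1, b3, e2 ▸ b1, e1 ▸ b2⟩

end Pool.Agent.Lib.MP_cbe08d_co.Mn
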