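import Mathlib

/-!
Orders of dimension four are the general case: if `N` arcs of `J` in every directed cut give `k`
dijoins for all digraphs whose reachability order has dimension at most four, the same holds for
all digraphs. Every digraph is replaced by the incidence order of a bipartite graph, bundles of
`N + 1` parallel arcs of `J` acting as identifications.
-/

set_option autoImplicit false

namespace Pool.Agent.Lib.MP_cbe08d_co.Mn.Four

variable {V A : Type} (tail head : A → V) (N : ℕ)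

/-- equal or adjacent pairs -/
def Pr : Type := {q : V × V // q.1 = q.2 ∨ ∃ a, tail a = q.1 ∧ head a = q.2}

def dg (v : V) : Pr tail head := ⟨(v, v), Or.inl rfl⟩

def ar (a : A) : Pr tail head := ⟨(tail a, head a), Or.inr ⟨a, rfl, rfl⟩⟩

def tl : A ⊕ (Pr tail head × Fin (N + 1)) ⊕ (V × Fin (N + 1)) → V ⊕ V ⊕ Pr tail head
  | .inl a => .inl (tail a)
  | .inr (.inl q) => .inr (.inl q.1.1.2)
  | .inr (.inr v) => .inl v.1

def hd : A ⊕ (Pr tail head × Fin (N + 1)) ⊕ (V × Fin (N + 1)) → V ⊕ V ⊕ Pr tail head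
  | .inl a => .inr (.inr (ar tail head a))
  | .inr (.inl q) => .inr (.inr q.1)
  | .inr (.inr v) => .inr (.inr (dg tail head v.1))

def co (ι : V → ℝ) (M : ℝ) : V ⊕ V ⊕ Pr tail head → Fin 4 → ℝ
  | .inl v => ![ι v, -ι v, -M, -M]
  | .inr (.inl v) => ![-M, -M, ι v, -ι v]
  | .inr (.inr q) => ![ι q.1.1, -ι q.1.1, ι q.1.2, -ι q.1.2]

theorem reach_iff (x y : V ⊕ V ⊕ Pr tail head) :
    Relation.ReflTransGen (fun x y => ∃ a, tl tail head N a = x ∧ hd tail head N a = y) x y ↔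
      x = y ∨ ∃ a, tl tail head N a = x ∧ hd tail head N a = y := by
  refine ⟨fun h => ?_, fun h => h.elim (fun e => e ▸ .refl) fun e => .single e⟩
  induction h with
  | refl => exact Or.inl rfl
  | tail _ e ih =>
    obtain rfl | ⟨a, -, rfl⟩ := ih
    · exact Or.inr e
    · obtain ⟨b, hb, -⟩ := e
      rcases a with a | a | a <;> rcases b with b | b | b <;> simp [tl, hd] at hb

theorem co_iff {ι : V → ℝ} {M : ℝ} (hι : Function.Injective ι) (h0 : ∀ v, 0 ≤ ι v)
    (h1 : ∀ v, ι v < M) (x y : V ⊕ V ⊕ Pr tail head) :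
    (x = y ∨ ∃ a, tl tail head N a = x ∧ hd tail head N a = y) ↔
      ∀ i, co tail head ι M x i ≤ co tail head ι M y i := by
  have e : ∀ {u v}, ι u ≤ ι v → -ι u ≤ -ι v → u = v := fun k k' =>
    hι (le_antisymm k (neg_le_neg_iff.1 k'))
  have n : ∀ {u}, ¬ι u ≤ -M := fun {u} k => by linarith [h0 u, h1 u]
  have l : ∀ u, -M ≤ ι u := fun u => by linarith [h0 u, h1 u]
  have l' : ∀ u, -M ≤ -ι u := fun u => neg_le_neg (h1 u).le
  constructor
  · rintro (rfl | ⟨a | a | a, rfl, rfl⟩) i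
    · exact le_rfl
    all_goals fin_cases i
    exacts [le_rfl, le_rfl, l _, l' _, l _, l' _, le_rfl, le_rfl, le_rfl, le_rfl, l _, l' _]
  · intro h
    rcases x with x | x | x <;> rcases y with y | y | y
    · exact Or.inl (congrArg _ (e (h 0) (h 1)))
    · exact absurd (h 0) n
    · obtain rfl : x = y.1.1 := e (h 0) (h 1)
      obtain k | ⟨a, k, k'⟩ := y.2
      · exact Or.inr ⟨.inr (.inr (y.1.1, 0)), rfl,
          congrArg (fun z => Sum.inr (Sum.inr z))
            (show dg tail head y.1.1 = y from Subtype.ext (Prod.ext rfl k))⟩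
      · exact Or.inr ⟨.inl a, congrArg _ k, congrArg _ (congrArg _ (Subtype.ext (Prod.ext k k')))⟩
    · exact absurd (h 2) n
    · exact Or.inl (congrArg _ (congrArg _ (e (h 2) (h 3))))
    · obtain rfl : x = y.1.2 := e (h 2) (h 3)
      exact Or.inr ⟨.inr (.inl (y, 0)), rfl, rfl⟩
    · exact absurd (h 2) n
    · exact absurd (h 0) n
    · exact Or.inl (congrArg _ (congrArg _ (Subtype.ext (Prod.ext (e (h 0) (h 1)) (e (h 2) (h 3))))))

theorem general {k : ℕ}
    (H : ∀ (V A : Type) [Finite V] [Finite A] (tail head : A → V) (J : Set A)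
      (p : V → Fin 4 → ℝ), (∀ x y : V, Relation.ReflTransGen
        (fun x y => ∃ a : A, tail a = x ∧ head a = y) x y ↔ ∀ i, p x i ≤ p y i) →
      (∀ S : Set V, (∀ a : A, head a ∈ S → tail a ∈ S) → (∃ a : A, tail a ∈ S ∧ head a ∉ S) →
        N ≤ Set.ncard {a : A | a ∈ J ∧ tail a ∈ S ∧ head a ∉ S}) →
      ∃ c : A → Fin k, ∀ i : Fin k, ∀ S : Set V, (∀ a : A, head a ∈ S → tail a ∈ S) →
        (∃ a : A, tail a ∈ S ∧ head a ∉ S) → ∃ a : A, a ∈ J ∧ c a = i ∧ tail a ∈ S ∧ head a ∉ S)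
    [Finite V] [Finite A] (J : Set A)
    (hJ : ∀ S : Set V, (∀ a : A, head a ∈ S → tail a ∈ S) → (∃ a : A, tail a ∈ S ∧ head a ∉ S) →
      N ≤ Set.ncard {a : A | a ∈ J ∧ tail a ∈ S ∧ head a ∉ S}) :
    ∃ c : A → Fin k, ∀ i : Fin k, ∀ S : Set V, (∀ a : A, head a ∈ S → tail a ∈ S) →
      (∃ a : A, tail a ∈ S ∧ head a ∉ S) → ∃ a : A, a ∈ J ∧ c a = i ∧ tail a ∈ S ∧ head a ∉ S := by
  obtain ⟨n, ⟨e⟩⟩ := Finite.exists_equiv_fin V
  have : Finite (Pr tail head) := Subtype.finite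
  obtain ⟨c, hc⟩ := H _ _ (tl tail head N) (hd tail head N) {a | ∀ b, a = .inl b → b ∈ J}
    (co tail head (fun v => ((e v : ℕ) : ℝ)) n)
    (fun x y => (reach_iff tail head N x y).trans (co_iff tail head N
      (fun u v k => e.injective (Fin.ext (Nat.cast_injective k))) (fun _ => Nat.cast_nonneg _)
      (fun v => Nat.cast_lt.2 (e v).2) x y)) fun S h1 h2 => by
    have big : ∀ g : Fin (N + 1) → (Pr tail head × Fin (N + 1)) ⊕ (V × Fin (N + 1)),
        Function.Injective g → (∀ j, tl tail head N (.inr (g j)) ∈ S ∧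
          hd tail head N (.inr (g j)) ∉ S) → N ≤ Set.ncard {a | a ∈ {a | ∀ b, a = .inl b → b ∈ J} ∧
            tl tail head N a ∈ S ∧ hd tail head N a ∉ S} := fun g g1 g2 => by
      refine le_trans (N.le_succ.trans (le_of_eq ?_)) (Set.ncard_le_ncard_of_injOn
        (s := Set.univ) (fun j => .inr (g j)) (fun j _ => ⟨fun _ k => (nomatch k), g2 j⟩)
        fun _ _ _ _ k => g1 (Sum.inr_injective k))
      rw [Set.ncard_univ, Nat.card_fin]
    by_cases k1 : ∃ q : Pr tail head, .inr (.inl q.1.2) ∈ S ∧ .inr (.inr q) ∉ S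
    · obtain ⟨q, k1⟩ := k1
      exact big (fun j => .inl (q, j)) (fun _ _ k => by simpa using k) fun _ => k1
    by_cases k2 : ∃ v : V, .inl v ∈ S ∧ .inr (.inr (dg tail head v)) ∉ S
    · obtain ⟨v, k2⟩ := k2
      exact big (fun j => .inr (v, j)) (fun _ _ k => by simpa using k) fun _ => k2
    have key : ∀ q : Pr tail head, .inr (.inr q) ∈ S ↔ .inl q.1.2 ∈ S := fun q =>
      ⟨fun k => h1 (.inr (.inr (q.1.2, 0))) (by_contra fun k' =>
          k1 ⟨dg tail head q.1.2, h1 (.inr (.inl (q, 0))) k, k'⟩),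
        fun k => by_contra fun k' => k1 ⟨q, h1 (.inr (.inl (dg tail head q.1.2, 0)))
          (by_contra fun k'' => k2 ⟨_, k, k''⟩), k'⟩⟩
    refine (hJ {v | Sum.inl v ∈ S} (fun a k => h1 (.inl a) ((key (ar tail head a)).2 k)) ?_).trans
      (Set.ncard_le_ncard_of_injOn .inl (fun a k => ⟨fun b k' => Sum.inl_injective k' ▸ k.1, k.2.1,
        fun k' => k.2.2 ((key (ar tail head a)).1 k')⟩) fun _ _ _ _ k => Sum.inl_injective k)
    obtain ⟨a | a | a, a1, a2⟩ := h2
    exacts [⟨a, a1, fun k => a2 ((key (ar tail head a)).2 k)⟩, absurd ⟨_, a1, a2⟩ k1,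
      absurd ⟨_, a1, a2⟩ k2]
  refine ⟨fun a => c (.inl a), fun i S h1 ⟨a, a1, a2⟩ => ?_⟩
  obtain ⟨b | b | b, b1, b2, b3, b4⟩ := hc i
    {x | Sum.elim id (Sum.elim id fun q : Pr tail head => q.1.2) x ∈ S}
    (by rintro (b | b | b) k; exacts [h1 b k, k, k]) ⟨.inl a, a1, a2⟩
  exacts [⟨b, b1 b rfl, b2, b3, b4⟩, absurd b3 b4, absurd b3 b4]

end Pool.Agent.Lib.MP_cbe08d_co.Mn.Four
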