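import Pool.Agent.Lib.MP_cbe08d_co.Mn.Fin

/-! Mader's bound for graphs without a clique minor. -/

set_option autoImplicit false

namespace Pool.Agent.Lib.MP_cbe08d_co.Mn

/-- a clique minor -/
def HasK {T : Type} (t : ℕ) (g : SimpleGraph T) : Prop :=
  ∃ B : Fin t → Set T, (∀ i, (B i).Nonempty ∧ Cn g (B i)) ∧
    (∀ i j, i ≠ j → Disjoint (B i) (B j)) ∧ ∀ i j, i ≠ j → Tch g (B i) (B j)

variable {W T : Type} {H : SimpleGraph W} {g : SimpleGraph T} {t : ℕ}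

theorem HasK.lift (h : HasK t H) (B : W → Set T) (h1 : ∀ w, (B w).Nonempty ∧ Cn g (B w))
    (h2 : ∀ p q, p ≠ q → Disjoint (B p) (B q)) (h3 : ∀ p q, H.Adj p q → Tch g (B p) (B q)) :
    HasK t g := by
  obtain ⟨C, c1, c2, c3⟩ := h
  refine ⟨fun i => {x | ∃ w ∈ C i, x ∈ B w}, fun i => ⟨?_, ?_⟩, fun i j e => ?_, fun i j e => ?_⟩
  · obtain ⟨w, hw⟩ := (c1 i).1
    exact (h1 w).1.mono fun x hx => ⟨w, hw, hx⟩
  · rintro x ⟨w, hw, hx⟩ y ⟨w', hw', hy⟩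
    have := (c1 i).2 w hw w' hw'
    clear hw'
    induction this generalizing y with
    | refl => exact ((h1 w).2 x hx y hy).mono fun z hz => ⟨w, hw, hz⟩
    | tail _ e ih =>
      obtain ⟨a, ha, b, hb, e'⟩ := h3 _ _ e.1
      exact ((ih a ha).tail ⟨e', ⟨_, e.2.1, ha⟩, _, e.2.2, hb⟩).trans
        (((h1 _).2 b hb y hy).mono fun z hz => ⟨_, e.2.2, hz⟩)
  · refine Set.disjoint_left.2 fun x ⟨w, hw, hx⟩ ⟨w', hw', hx'⟩ => ?_
    exact Set.disjoint_left.1 (h2 w w' fun k => Set.disjoint_left.1 (c2 i j e) hw (k ▸ hw')) hx hx'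
  · obtain ⟨p, hp, q, hq, e'⟩ := c3 i j e
    obtain ⟨a, ha, b, hb, e''⟩ := h3 p q e'
    exact ⟨a, ⟨p, hp, ha⟩, b, ⟨q, hq, hb⟩, e''⟩

theorem HasK.cons {x : W} (h : HasK t (H.comap (Subtype.val : {y // H.Adj x y} → W))) :
    HasK (t + 1) H := by
  obtain ⟨C, c1, c2, c3⟩ := h
  have k : ∀ i, Disjoint {x} (Subtype.val '' C i) ∧ Tch H {x} (Subtype.val '' C i) := fun i => by
    obtain ⟨y, hy⟩ := (c1 i).1
    exact ⟨Set.disjoint_singleton_left.2 fun ⟨z, _, e⟩ => z.2.ne e.symm,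
      x, rfl, y, ⟨y, hy, rfl⟩, y.2⟩
  refine ⟨Fin.cons {x} fun i => Subtype.val '' C i, fun i => ?_, fun i j e => ?_, fun i j e => ?_⟩
  · refine Fin.cases ?_ (fun i => ?_) i
    · exact ⟨Set.singleton_nonempty x, cn_single x⟩
    · exact ⟨(c1 i).1.image _, (c1 i).2.image⟩
  · revert e
    refine Fin.cases ?_ (fun i => ?_) i <;> refine Fin.cases ?_ (fun j => ?_) j <;> intro e
    · exact absurd rfl e
    · exact (k j).1
    · exact (k i).1.symm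
    · exact (Set.disjoint_image_iff Subtype.val_injective).2 (c2 i j fun h => e (h ▸ rfl))
  · revert e
    refine Fin.cases ?_ (fun i => ?_) i <;> refine Fin.cases ?_ (fun j => ?_) j <;> intro e
    · exact absurd rfl e
    · exact (k j).2
    · obtain ⟨a, ha, b, hb, e'⟩ := (k i).2
      exact ⟨b, hb, a, ha, e'.symm⟩
    · obtain ⟨a, ha, b, hb, e'⟩ := c3 i j fun h => e (h ▸ rfl)
      exact ⟨a, ⟨a, ha, rfl⟩, b, ⟨b, hb, rfl⟩, e'⟩

/-- contraction of an edge -/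
theorem mader_ctr [Finite W] {x y : W} (e : H.Adj x y) : ∃ (W' : Type) (_ : Finite W')
    (H' : SimpleGraph W'), Nat.card W' + 1 = Nat.card W ∧ (∀ t, HasK t H' → HasK t H) ∧
    {p : W × W | H.Adj p.1 p.2}.ncard ≤ {p : W' × W' | H'.Adj p.1 p.2}.ncard +
      (2 + 2 * {z | H.Adj x z ∧ H.Adj y z}.ncard) := by
  obtain ⟨W', _, f, hf, he, hk⟩ := Ins.quot_ex (B := {x, y}) (b := x) (Or.inl rfl)
  rw [Set.ncard_pair e.ne] at hk
  let H' : SimpleGraph W' := SimpleGraph.fromRel fun p q => ∃ a b, H.Adj a b ∧ f a = p ∧ f b = q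
  refine ⟨W', inferInstance, H', by omega, fun t h => h.lift (fun w => f ⁻¹' {w})
    (fun w => ⟨hf w, fun a ha b hb => ?_⟩) (fun p q k => (Set.disjoint_singleton.2 k).preimage f)
    fun p q k => ?_, ?_⟩
  · rcases (he a b).1 (ha.trans hb.symm) with rfl | ⟨rfl | rfl, rfl | rfl⟩
    exacts [.refl, .refl, .single ⟨e, ha, hb⟩, .single ⟨e.symm, ha, hb⟩, .refl]
  · obtain ⟨-, ⟨a, b, k', e1, e2⟩ | ⟨a, b, k', e1, e2⟩⟩ := (SimpleGraph.fromRel_adj _ _ _).1 k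
    exacts [⟨a, e1, b, e2, k'⟩, ⟨b, e2, a, e1, k'.symm⟩]
  let Z := {z | H.Adj x z ∧ H.Adj y z}
  let P : Set (W × W) := {(x, y), (y, x)} ∪ ((fun z => (y, z)) '' Z ∪ (fun z => (z, y)) '' Z)
  have p1 : P.ncard ≤ 2 + 2 * Z.ncard := by
    refine (Set.ncard_union_le _ _).trans (Nat.add_le_add ((Set.ncard_insert_le _ _).trans
      (by rw [Set.ncard_singleton])) ((Set.ncard_union_le _ _).trans ?_))
    rw [two_mul]
    exact Nat.add_le_add Set.ncard_image_le Set.ncard_image_le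
  refine le_trans (le_trans (Set.ncard_le_ncard (t := {p : W × W | H.Adj p.1 p.2} \ P ∪ P)
    fun p hp => (em _).symm.imp_left fun k => ⟨hp, k⟩) (Set.ncard_union_le _ _))
    (Nat.add_le_add ?_ p1)
  have ne : ∀ a b, H.Adj a b → (a, b) ∉ P → f a ≠ f b := fun a b k hP k' => by
    rcases (he a b).1 k' with rfl | ⟨rfl | rfl, rfl | rfl⟩
    exacts [k.ne rfl, k.ne rfl, hP (.inl (.inl rfl)), hP (.inl (.inr rfl)), k.ne rfl]
  refine Set.ncard_le_ncard_of_injOn (fun p => (f p.1, f p.2)) (fun p hp => show H'.Adj _ _ from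
    (SimpleGraph.fromRel_adj _ _ _).2 ⟨ne _ _ hp.1 hp.2, .inl ⟨_, _, hp.1, rfl, rfl⟩⟩) ?_
  rintro ⟨a, b⟩ ⟨h1, h2⟩ ⟨a', b'⟩ ⟨h3, h4⟩ k
  obtain ⟨k1, k2⟩ := Prod.mk.inj k
  have n1 := ne a b h1 h2
  rcases (he a a').1 k1 with rfl | k3
  · rcases (he b b').1 k2 with rfl | ⟨rfl | rfl, rfl | rfl⟩
    · rfl
    · rfl
    · exact absurd (.inr (.inr ⟨a, ⟨h1.symm, h3.symm⟩, rfl⟩)) h4
    · exact absurd (.inr (.inr ⟨a, ⟨h3.symm, h1.symm⟩, rfl⟩)) h2
    · rfl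
  · obtain rfl : b = b' := ((he b b').1 k2).resolve_right fun k4 =>
      n1 ((he a b).2 (.inr ⟨k3.1, k4.1⟩))
    rcases k3 with ⟨rfl | rfl, rfl | rfl⟩
    · rfl
    · exact absurd (.inr (.inl ⟨b, ⟨h1, h3⟩, rfl⟩)) h4
    · exact absurd (.inr (.inl ⟨b, ⟨h3, h1⟩, rfl⟩)) h2
    · rfl

theorem mader (t : ℕ) : ∀ (n : ℕ) (W : Type) [Finite W] (H : SimpleGraph W), Nat.card W = n + 1 →
    2 ^ t * n < {p : W × W | H.Adj p.1 p.2}.ncard → HasK (t + 2) H := by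
  induction t with
  | zero =>
    intro n W _ H _ h
    obtain ⟨p, hp⟩ := Set.nonempty_of_ncard_ne_zero (Nat.zero_lt_of_lt h).ne'
    refine HasK.cons (x := p.1) ⟨fun _ => {⟨p.2, hp⟩},
      fun _ => ⟨Set.singleton_nonempty _, cn_single _⟩, fun i j e => ?_, fun i j e => ?_⟩ <;>
      exact absurd (Subsingleton.elim (α := Fin 1) i j) e
  | succ t ih =>
    intro n
    induction n with
    | zero =>
      intro W _ H hW h
      obtain ⟨p, hp⟩ := Set.nonempty_of_ncard_ne_zero (Nat.zero_lt_of_lt h).ne'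
      exact absurd ((Nat.card_eq_one_iff_unique.1 hW).1.elim _ _) (SimpleGraph.Adj.ne hp)
    | succ n ihn =>
      intro W _ H hW h
      by_contra hK
      have com : ∀ x y, H.Adj x y → 2 ^ t ≤ {z | H.Adj x z ∧ H.Adj y z}.ncard := fun x y e => by
        obtain ⟨W', _, H', k1, k2, k3⟩ := mader_ctr e
        have := not_lt.1 fun k => hK (k2 _ (ihn W' H' (by omega) k))
        rw [pow_succ] at h this
        nlinarith
      obtain ⟨⟨x, y⟩, hp⟩ := Set.nonempty_of_ncard_ne_zero (Nat.zero_lt_of_lt h).ne'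
      have : Nonempty {z // H.Adj x z} := ⟨⟨y, hp⟩⟩
      obtain ⟨m, hm⟩ := Nat.exists_eq_succ_of_ne_zero (Nat.card_pos (α := {z // H.Adj x z})).ne'
      refine hK (HasK.cons (x := x) (ih m _ _ hm ?_))
      have := fib_ge {p : {z // H.Adj x z} × {z // H.Adj x z} |
          (H.comap Subtype.val).Adj p.1 p.2} Prod.fst Set.univ (2 ^ t) fun z _ => by
        refine (com x z.1 z.2).trans (le_trans (Set.ncard_le_ncard ?_)
          (Set.ncard_image_le (f := fun p => p.2.1)))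
        exact fun w hw => ⟨(z, ⟨w, hw.1⟩), ⟨hw.2, rfl⟩, rfl⟩
      rw [Set.ncard_univ, hm, Nat.mul_succ] at this
      exact lt_of_lt_of_le (Nat.lt_add_of_pos_right (Nat.two_pow_pos t)) this

theorem sp_of_not_hasK (h : ¬HasK (t + 2) g) : Sp (2 ^ t) g := fun n B h1 h2 =>
  not_lt.1 fun k => h ((mader t n (Fin (n + 1))
    ⟨fun i j => i ≠ j ∧ Tch g (B i) (B j),
      ⟨fun _ _ ⟨e, a, ha, b, hb, e'⟩ => ⟨e.symm, b, hb, a, ha, e'.symm⟩⟩,
      ⟨fun _ e => e.1 rfl⟩⟩ (Nat.card_fin _) k).lift B h1 h2 fun _ _ e => e.2)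

theorem Sp.mono {d d' : ℕ} (h : Sp d g) (hd : d ≤ d') : Sp d' g := fun n B h1 h2 =>
  (h n B h1 h2).trans (Nat.mul_le_mul_right _ hd)

end Pool.Agent.Lib.MP_cbe08d_co.Mn
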