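import Pool.Agent.Lib.MP_cbe08d_co.Edmonds

/-! A multigraph with `k (n - 1)` edges on `n ≥ 2` points has a set of at least two points with
`k` disjoint connected spanning edge sets (Hall's theorem, then Edmonds' theorem). -/

set_option autoImplicit false

namespace Pool.Agent.Lib.MP_cbe08d_co.Mn

variable {A V K : Type} [Finite V] [Finite A]

omit [Finite V] in
theorem fib_ge (U : Set A) (f : A → V) (S : Set V) (n : ℕ)
    (h : ∀ s ∈ S, n ≤ {a | a ∈ U ∧ f a = s}.ncard) : n * S.ncard ≤ U.ncard := by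
  classical
  rcases S.finite_or_infinite with hS | hS
  swap
  · simp [hS.ncard]
  have := Finset.mul_card_image_le_card_of_maps_to (f := f) (t := hS.toFinset)
    (s := (Set.toFinite {a | a ∈ U ∧ f a ∈ S}).toFinset) (fun a ha => by simp_all) n
    fun b hb => by
      have hb' : b ∈ S := by simpa using hb
      refine (h b hb').trans_eq ?_
      rw [← Set.ncard_coe_finset]
      congr 1
      ext a
      simp only [Set.mem_ofPred_eq, Finset.coe_filter, Set.Finite.mem_toFinset]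
      exact ⟨fun e => ⟨⟨e.1, e.2 ▸ hb'⟩, e.2⟩, fun e => ⟨e.1.1, e.2⟩⟩
  rw [← Set.ncard_eq_toFinset_card _ hS, ← Set.ncard_eq_toFinset_card] at this
  exact this.trans (Set.ncard_le_ncard fun a ha => ha.1)

omit [Finite V] in
theorem fib_le {B : Type} [Finite B] (U : Set A) (f : A → B) (S : Set B) (n : ℕ)
    (hm : ∀ a ∈ U, f a ∈ S) (h : ∀ s, {a | a ∈ U ∧ f a = s}.ncard ≤ n) :
    U.ncard ≤ n * S.ncard := by
  classical
  have := Finset.card_le_mul_card_image_of_maps_to (f := f) (t := (Set.toFinite S).toFinset)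
    (s := (Set.toFinite U).toFinset) (fun a ha => by simpa using hm a (by simpa using ha)) n
    fun b _ => by
      rw [← Set.ncard_coe_finset]
      simpa using h b
  rwa [← Set.ncard_eq_toFinset_card, ← Set.ncard_eq_toFinset_card] at this

theorem pack [Finite K] [Nonempty K] (h t : A → V) (R : Set A) (H : Set V)
    (hR : ∀ a ∈ R, h a ≠ t a ∧ h a ∈ H ∧ t a ∈ H) (hH : H.Nontrivial)
    (hn : Nat.card K * H.ncard ≤ R.ncard + Nat.card K) :
    ∃ W ⊆ H, W.Nontrivial ∧ ∃ c : A → K, ∀ i (Y : Set V), (∃ x ∈ W, x ∈ Y) → (∃ x ∈ W, x ∉ Y) →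
      ∃ a ∈ R, c a = i ∧ h a ∈ W ∧ t a ∈ W ∧ ¬(h a ∈ Y ↔ t a ∈ Y) := by
  classical
  obtain ⟨k, hk⟩ : ∃ k, k = Nat.card K := ⟨_, rfl⟩
  rw [← hk] at hn
  let E : Set V → Set A := fun W => {a | a ∈ R ∧ h a ∈ W ∧ t a ∈ W}
  obtain ⟨W, ⟨w1, w2, w3⟩, hmin⟩ := Set.exists_min_image
    {W | W ⊆ H ∧ W.Nontrivial ∧ k * W.ncard ≤ (E W).ncard + k} Set.ncard (Set.toFinite _)
    ⟨H, subset_rfl, hH, hn.trans (Nat.add_le_add_right
      (Set.ncard_le_ncard (t := E H) fun a ha => ⟨ha, (hR a ha).2⟩) _)⟩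
  obtain ⟨r, hr⟩ := w2.nonempty
  have sp : ∀ Y ⊆ W, Y ≠ W → Y.Nonempty → (E Y).ncard + k ≤ k * Y.ncard := by
    intro Y y1 y2 y3
    by_cases y4 : Y.Nontrivial
    · by_contra hn
      exact absurd (hmin Y ⟨y1.trans w1, y4, (not_le.1 hn).le⟩)
        (not_le.2 (Set.ncard_lt_ncard (y1.ssubset_of_ne y2)))
    · obtain ⟨y, hy⟩ := y3
      obtain rfl := (Set.not_nontrivial_iff.1 y4).eq_singleton_of_mem hy
      have : E {y} = ∅ := Set.eq_empty_of_forall_notMem fun a ha =>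
        (hR a ha.1).1 (ha.2.1.trans ha.2.2.symm)
      simp [this]
  have := Fintype.ofFinite A
  have := Fintype.ofFinite ((W \ {r} : Set V) × K)
  obtain ⟨f, finj, hf⟩ := (Fintype.all_card_le_filter_rel_iff_exists_injective
    fun (p : (W \ {r} : Set V) × K) a => a ∈ E W ∧ (h a = p.1.1 ∨ t a = p.1.1)).1 fun s => by
      let X : Set V := (fun p => p.1.1) '' (s : Set ((W \ {r} : Set V) × K))
      have x1 : X ⊆ W \ {r} := by
        rintro _ ⟨p, -, rfl⟩
        exact p.1.2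
      have e1 : (s : Set ((W \ {r} : Set V) × K)).ncard ≤ k * X.ncard :=
        fib_le _ (fun p => p.1.1) X k (fun p hp => ⟨p, hp, rfl⟩) fun x => by
          rw [hk, ← Set.ncard_univ]
          exact Set.ncard_le_ncard_of_injOn Prod.snd (fun _ _ => trivial) fun p hp q hq e =>
            Prod.ext (Subtype.ext (hp.2.trans hq.2.symm)) e
      rw [← Set.ncard_coe_finset, ← Set.ncard_coe_finset]
      rcases X.eq_empty_or_nonempty with e | ⟨x, hx⟩
      · rw [e, Set.ncard_empty] at e1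
        omega
      have e2 := sp (W \ X) Set.sdiff_subset (fun e => (e.symm ▸ (x1 hx).1 : x ∈ W \ X).2 hx)
        ⟨r, hr, fun e => (x1 e).2 rfl⟩
      have e3 := Set.ncard_sdiff_add_ncard_of_subset (x1.trans Set.sdiff_subset)
      have e4 : (E W).ncard ≤ _ + (E (W \ X)).ncard := le_trans (Set.ncard_le_ncard
        (t := (Finset.univ.filter fun a => ∃ p ∈ s, a ∈ E W ∧ (h a = p.1.1 ∨ t a = p.1.1) :
          Finset A) ∪ E (W \ X)) fun a ha => by
          by_cases k1 : h a ∈ X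
          · obtain ⟨p, p1, p2⟩ := k1
            exact Or.inl (Finset.mem_coe.2 (Finset.mem_filter.2
              ⟨Finset.mem_univ _, p, p1, ha, Or.inl p2.symm⟩))
          by_cases k2 : t a ∈ X
          · obtain ⟨p, p1, p2⟩ := k2
            exact Or.inl (Finset.mem_coe.2 (Finset.mem_filter.2
              ⟨Finset.mem_univ _, p, p1, ha, Or.inr p2.symm⟩))
          · exact Or.inr ⟨ha.1, ⟨ha.2.1, k1⟩, ha.2.2, k2⟩) (Set.ncard_union_le _ _)
      rw [← e3, mul_add] at w3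
      omega
  let hd : A → V := Function.extend f (fun p => p.1.1) fun _ => r
  let tl : A → V := fun a => if h a = hd a then t a else h a
  have hd1 : ∀ p, hd (f p) = p.1.1 := fun p => finj.extend_apply _ _ p
  have en : ∀ p, (h (f p) = hd (f p) ∧ t (f p) = tl (f p)) ∨
      (t (f p) = hd (f p) ∧ h (f p) = tl (f p)) := fun p => by
    by_cases e : h (f p) = hd (f p)
    · exact Or.inl ⟨e, (if_pos e).symm⟩
    · exact Or.inr ⟨((hf p).2.resolve_left (hd1 p ▸ e)).trans (hd1 p).symm, (if_neg e).symm⟩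
  obtain ⟨c, hc⟩ := edmonds_nat tl hd {X | X ⊆ W \ {r} ∧ X.Nonempty}
    (fun X hX Y hY hn => ⟨⟨Set.inter_subset_left.trans hX.1, hn⟩,
      Set.union_subset hX.1 hY.1, hX.2.inl⟩) k (Set.range f) fun X hX => by
      have e1 := fib_ge {a | a ∈ Set.range f ∧ hd a ∈ X} hd X k fun x hx => by
        rw [hk, ← Set.ncard_univ]
        exact Set.ncard_le_ncard_of_injOn (fun i => f (⟨x, hX.1 hx⟩, i))
          (fun i _ => ⟨⟨⟨_, rfl⟩, hd1 _ ▸ hx⟩, hd1 _⟩) fun i _ j _ e =>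
            congrArg Prod.snd (finj e)
      have e2 := sp X (hX.1.trans Set.sdiff_subset) (fun e => (hX.1 (e ▸ hr)).2 rfl) hX.2
      have e3 : {a | a ∈ Set.range f ∧ hd a ∈ X}.ncard ≤
          (Set.range f ∩ ent tl hd X).ncard + (E X).ncard :=
        le_trans (Set.ncard_le_ncard (by
          rintro _ ⟨⟨p, rfl⟩, hp⟩
          by_cases e : tl (f p) ∈ X
          · rcases en p with k | k
            exacts [Or.inr ⟨(hf p).1.1, k.1 ▸ hp, k.2 ▸ e⟩, Or.inr ⟨(hf p).1.1, k.2 ▸ e, k.1 ▸ hp⟩]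
          · exact Or.inl ⟨⟨p, rfl⟩, hp, e⟩)) (Set.ncard_union_le _ _)
      omega
  subst hk
  refine ⟨W, w1, w2, fun a => if e : c a < Nat.card K then (Finite.equivFin K).symm ⟨c a, e⟩
    else Classical.arbitrary K, fun i Y ⟨x, x1, x2⟩ ⟨y, y1, y2⟩ => ?_⟩
  have key : ∀ X, X ⊆ W \ {r} → X.Nonempty → ((∀ z ∈ W, z ∈ X ↔ z ∈ Y) ∨ ∀ z ∈ W, z ∈ X ↔ z ∉ Y) →
      ∃ a ∈ R, (if e : c a < Nat.card K then (Finite.equivFin K).symm ⟨c a, e⟩
        else Classical.arbitrary K) = i ∧ h a ∈ W ∧ t a ∈ W ∧ ¬(h a ∈ Y ↔ t a ∈ Y) := by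
    intro X k1 k2 k3
    obtain ⟨_, ⟨⟨p, rfl⟩, p1, p2⟩, p3⟩ := hc _ (Finite.equivFin K i).2 X ⟨k1, k2⟩
    obtain ⟨⟨q1, q2, q3⟩, -⟩ := hf p
    refine ⟨f p, q1, ?_, q2, q3, ?_⟩
    · rw [dif_pos (p3 ▸ (Finite.equivFin K i).2), Equiv.symm_apply_eq]
      exact Fin.ext p3
    · rcases en p with k | k <;> rw [← k.1] at p1 <;> rw [← k.2] at p2 <;>
        rcases k3 with k3 | k3 <;> have := k3 _ q2 <;> have := k3 _ q3 <;> tauto
  by_cases e : r ∈ Y
  · exact key (W \ Y) (fun z hz => ⟨hz.1, fun k => hz.2 (k ▸ e)⟩) ⟨y, y1, y2⟩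
      (Or.inr fun z hz => ⟨And.right, fun k => ⟨hz, k⟩⟩)
  · exact key (W ∩ Y) (fun z hz => ⟨hz.1, fun k => e (k ▸ hz.2)⟩) ⟨x, x1, x2⟩
      (Or.inl fun z hz => ⟨And.right, fun k => ⟨hz, k⟩⟩)

end Pool.Agent.Lib.MP_cbe08d_co.Mn
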