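import Pool.Agent.Lib.MP_cbe08d_co.Mn.Red
import Pool.Agent.Lib.MP_cbe08d_co.Mn.Pack

/-! The counting argument and the induction. -/

set_option autoImplicit false

namespace Pool.Agent.Lib.MP_cbe08d_co.Mn

open Ins

variable {A V K : Type} [Finite V] [Finite A] {I : Ins A V} {g N : ℕ} {v : V} {π : A → K}

omit [Finite A] in
/-- neighbouring cells of sources -/
theorem cells_le {T : Type} {g : SimpleGraph T} {d : ℕ} (hg : Sp d g) {l : T → V}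
    (h : I.Sup g l) (hne : {x | I.Src x}.Nonempty) :
    {p : V × V | p.1 ≠ p.2 ∧ I.Src p.1 ∧ I.Src p.2 ∧ I.Lk g l p.1 p.2}.ncard + d ≤
      d * {x | I.Src x}.ncard := by
  obtain ⟨n, hn⟩ := Nat.exists_eq_succ_of_ne_zero ((Set.ncard_pos (Set.toFinite _)).2 hne).ne'
  let e : {x | I.Src x} ≃ Fin (n + 1) := Finite.equivFinOfCardEq hn
  have := hg n (fun i => I.sh l (e.symm i)) (fun i => ⟨h.ne _, h.cn _⟩) fun i j hij =>
    Set.disjoint_left.2 fun τ h1 h2 => hij (e.symm.injective (Subtype.ext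
      (((e.symm i).2.eq h1).symm.trans ((e.symm j).2.eq h2))))
  rw [hn, Nat.mul_succ]
  refine Nat.add_le_add_right (le_trans ?_ this) _
  refine le_trans (Set.ncard_le_ncard ?_)
    (Set.ncard_image_le (f := fun p : Fin (n + 1) × Fin (n + 1) => ((e.symm p.1).1, (e.symm p.2).1)))
  rintro ⟨x, y⟩ ⟨h1, h2, h3, h4⟩
  obtain ⟨σ, τ, k1, k2, k3⟩ := h.cells h2 h3 h1 h4
  refine ⟨(e ⟨x, h2⟩, e ⟨y, h3⟩), ⟨fun k => h1 (congrArg Subtype.val (e.injective k)), σ, ?_, τ, ?_,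
    k1⟩, by simp⟩
  · simp only [Equiv.symm_apply_apply]
    exact show I.le _ _ from k2 ▸ .refl
  · simp only [Equiv.symm_apply_apply]
    exact show I.le _ _ from k3 ▸ .refl

/-- a set of points spanned by `k` disjoint connected sets of vertical arcs is contracted -/
theorem Ctx.vert [Finite K] [Nonempty K] (C : Ctx I g N v π) {H : Set V} (hv : v ∉ H)
    (hH : H.Nontrivial) {R : Set A}
    (hR : ∀ a ∈ R, I.h a ≠ I.t a ∧ I.h a ∈ H ∧ I.t a ∈ H ∧ I.le (I.t a) (I.h a)) :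
    R.ncard + Nat.card K < Nat.card K * H.ncard := by
  classical
  by_contra hn
  obtain ⟨W, w1, w2, c1, hc⟩ := pack (K := K) I.h I.t R H
    (fun a ha => ⟨(hR a ha).1, (hR a ha).2.1, (hR a ha).2.2.1⟩) hH (not_lt.1 hn)
  have hvW : v ∉ W := fun k => hv (w1 k)
  have con : I.Con W := fun x hx y hy => by_contra fun hn => by
    obtain ⟨a, a1, -, a3, a4, a5⟩ := hc (Classical.arbitrary K) {z | Pa I.G W x z}
      ⟨x, hx, .refl⟩ ⟨y, hy, hn⟩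
    have e := (adj_arc a).resolve_left (hR a a1).1
    exact a5 ⟨fun k => k.tail ⟨e, a3, a4⟩, fun k => k.tail ⟨e.symm, a4, a3⟩⟩
  obtain ⟨c0, e0, s0⟩ := quot C.ihV C.hyp w2.nonempty (tight_lt w2) con (Or.inr ⟨v, hvW, rfl⟩) C.pre
  refine C.no ⟨fun a => if I.h a ∈ W ∧ I.t a ∈ W then c1 a else c0 a, fun a ha =>
    (if_neg fun k => hvW ((mem_ent_compl.1 ha).1 ▸ k.1)).trans (e0 a ha), fun i Y hY _ => ?_⟩
  by_cases hS : W ⊆ Y ∨ Disjoint W Y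
  · refine (s0 i Y hY hS).imp_right fun ⟨a, ha, h1, h2⟩ => ⟨a, ha, (if_neg fun k => ?_).trans h1, h2⟩
    exact hS.elim (fun e => ha.2 (e k.1)) fun e => Set.disjoint_left.1 e k.2 ha.1
  · obtain ⟨h1, h2⟩ := not_or.1 hS
    obtain ⟨a, a1, a2, a3, a4, a5⟩ := hc i Y (Set.not_disjoint_iff.1 h2) (Set.not_subset.1 h1)
    have a6 : I.h a ∉ Y := fun k => a5 (iff_of_true k (hY.1.le (hR a a1).2.2.2 k))
    exact Or.inr ⟨a, ⟨by_contra fun k => a5 (iff_of_false a6 k), a6⟩,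
      (if_pos ⟨a3, a4⟩).trans a2, fun k => hvW (k ▸ a3)⟩

theorem Ctx.deg (C : Ctx I g N v π) : N * ({x | I.Src x}.ncard + {x | I.Snk x}.ncard) ≤
    {a | (I.h a ≠ I.t a ∧ I.h a ≠ v) ∧ I.Src (I.t a)}.ncard +
      {a | (I.h a ≠ I.t a ∧ I.h a ≠ v) ∧ I.Snk (I.h a)}.ncard + 2 * N := by
  have h1 := fib_ge {a | I.h a ≠ I.t a ∧ I.Src (I.t a)} I.t {x | I.Src x} N fun s hs =>
    (C.hyp.strong {s} ⟨ideal_single.2 hs, Set.singleton_nonempty s, v,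
      fun e => C.not_both hs (e ▸ C.snk)⟩).trans (Set.ncard_le_ncard fun a ha =>
        ⟨⟨fun e => ha.2 (e ▸ ha.1), ha.1 ▸ hs⟩, ha.1⟩)
  have h2 := fib_ge {a | (I.h a ≠ I.t a ∧ I.h a ≠ v) ∧ I.Snk (I.h a)} I.h ({x | I.Snk x} \ {v}) N
    fun u hu => (C.hyp.strong {u}ᶜ ⟨ideal_compl_single.2 hu.1, ⟨v, Ne.symm hu.2⟩, u,
      not_not.2 rfl⟩).trans (Set.ncard_le_ncard fun a ha => by
        obtain ⟨rfl, e⟩ := mem_ent_compl.1 ha
        exact ⟨⟨⟨e.symm, hu.2⟩, hu.1⟩, rfl⟩)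
  have h3 := Set.ncard_sdiff_singleton_add_one (s := {x | I.Snk x}) C.snk
  have h4 : {a | I.h a ≠ I.t a ∧ I.Src (I.t a)}.ncard ≤
      {a | (I.h a ≠ I.t a ∧ I.h a ≠ v) ∧ I.Src (I.t a)}.ncard + N := by
    refine le_trans (le_trans (Set.ncard_le_ncard fun a ha => ?_) (Set.ncard_union_le _ _))
      (Nat.add_le_add_left C.pre.le _)
    by_cases e : I.h a = v
    · exact Or.inr (mem_ent_compl.2 ⟨e, fun e' => ha.1 (e.trans e'.symm)⟩)
    · exact Or.inl ⟨⟨ha.1, e⟩, ha.2⟩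
  rw [← h3]
  nlinarith

theorem Ctx.false [Finite K] [Nonempty K] (C : Ctx I g N v π)
    (hN : g * (Nat.card K - 1) + 2 * Nat.card K ≤ N) : False := by
  have h4 := C.three
  have e1 := Set.ncard_union_eq (Set.disjoint_left.2 fun _ => C.not_both :
    Disjoint {x | I.Src x} {x | I.Snk x})
  have hub : ∀ a, I.h a ≠ I.t a →
      (I.Src (I.h a) ∨ I.Snk (I.h a)) ∧ (I.Src (I.t a) ∨ I.Snk (I.t a)) := fun a ha =>
    ⟨by_contra fun e => (C.clean (not_or.1 e).1 (not_or.1 e).2 ha).1 rfl,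
      by_contra fun e => (C.clean (not_or.1 e).1 (not_or.1 e).2 ha).2 rfl⟩
  have mu : ∀ x y, {a | (I.h a ≠ I.t a ∧ I.h a ≠ v) ∧ I.h a = x ∧ I.t a = y}.ncard ≤
      Nat.card K - 1 := fun x y => by
    rcases Set.eq_empty_or_nonempty {a | (I.h a ≠ I.t a ∧ I.h a ≠ v) ∧ I.h a = x ∧ I.t a = y} with
      e | ⟨b, hb, rfl, rfl⟩
    · rw [e, Set.ncard_empty]
      exact Nat.zero_le _
    · exact Nat.le_sub_one_of_lt ((Set.ncard_le_ncard fun a ha => ha.2).trans_lt (C.mult hb.2 hb.1))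
  obtain ⟨⟨T1, -, G1, l1, hg1, hl1⟩, T2, -, G2, l2, hg2, hl2⟩ := C.hyp.cl
  have c1 := cells_le hg1 hl1 ((C.exists_src v).imp fun _ => And.left)
  have c2 : _ ≤ g * {x | I.Snk x}.ncard := cells_le hg2 hl2 ⟨v, C.snk⟩
  have b1 := fib_le {a | (I.h a ≠ I.t a ∧ I.h a ≠ v) ∧ I.Src (I.h a) ∧ I.Src (I.t a)}
    (fun a => (I.h a, I.t a)) {p | p.1 ≠ p.2 ∧ I.Src p.1 ∧ I.Src p.2 ∧ I.Lk G1 l1 p.1 p.2} _
    (fun a ha => ⟨ha.1.1, ha.2.1, ha.2.2, hl1.arc a⟩) fun p => (mu p.1 p.2).trans'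
      (Set.ncard_le_ncard fun a ha => ⟨ha.1.1, congrArg Prod.fst ha.2, congrArg Prod.snd ha.2⟩)
  have b2 := fib_le {a | (I.h a ≠ I.t a ∧ I.h a ≠ v) ∧ I.Snk (I.h a) ∧ I.Snk (I.t a)}
    (fun a => (I.h a, I.t a))
    {p | p.1 ≠ p.2 ∧ I.rev.Src p.1 ∧ I.rev.Src p.2 ∧ I.rev.Lk G2 l2 p.1 p.2} _
    (fun a ha => ⟨ha.1.1, ha.2.1, ha.2.2, (hl2.arc a).symm⟩) fun p => (mu p.1 p.2).trans'
      (Set.ncard_le_ncard fun a ha => ⟨ha.1.1, congrArg Prod.fst ha.2, congrArg Prod.snd ha.2⟩)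
  have e2 := Set.ncard_sdiff_singleton_add_one (s := {x | I.Src x} ∪ {x | I.Snk x}) (Or.inr C.snk)
  have b3 := C.vert (H := ({x | I.Src x} ∪ {x | I.Snk x}) \ {v}) (fun k => k.2 rfl)
    (Set.one_lt_ncard_iff_nontrivial.1 (by omega))
    (R := {a | (I.h a ≠ I.t a ∧ I.h a ≠ v) ∧ I.Snk (I.h a) ∧ I.Src (I.t a)}) fun a ha => by
      obtain ⟨u, s, k1, k2, k3⟩ := C.hyp.loc a
      exact ⟨ha.1.1, ⟨Or.inr ha.2.1, ha.1.2⟩, ⟨Or.inl ha.2.2,
        fun e => C.not_both ha.2.2 (e ▸ C.snk)⟩, ha.2.1.eq k1 ▸ ha.2.2.eq k3 ▸ k2⟩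
  have b4 : {a | (I.h a ≠ I.t a ∧ I.h a ≠ v) ∧ I.Src (I.t a)}.ncard ≤ _ :=
    le_trans (Set.ncard_le_ncard (t :=
      {a | (I.h a ≠ I.t a ∧ I.h a ≠ v) ∧ I.Src (I.h a) ∧ I.Src (I.t a)} ∪
      {a | (I.h a ≠ I.t a ∧ I.h a ≠ v) ∧ I.Snk (I.h a) ∧ I.Src (I.t a)}) fun a ha =>
        (hub a ha.1.1).1.imp (fun k => ⟨ha.1, k, ha.2⟩) fun k => ⟨ha.1, k, ha.2⟩)
      (Set.ncard_union_le _ _)
  have b5 : {a | (I.h a ≠ I.t a ∧ I.h a ≠ v) ∧ I.Snk (I.h a)}.ncard ≤ _ :=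
    le_trans (Set.ncard_le_ncard (t :=
      {a | (I.h a ≠ I.t a ∧ I.h a ≠ v) ∧ I.Snk (I.h a) ∧ I.Src (I.t a)} ∪
      {a | (I.h a ≠ I.t a ∧ I.h a ≠ v) ∧ I.Snk (I.h a) ∧ I.Snk (I.t a)}) fun a ha =>
        (hub a ha.1.1).2.imp (fun k => ⟨ha.1, ha.2, k⟩) fun k => ⟨ha.1, ha.2, k⟩)
      (Set.ncard_union_le _ _)
  have h5 := C.deg
  have c3 := Nat.mul_le_mul_left (Nat.card K - 1) (Nat.add_le_add c1 c2)
  rw [← mul_add g] at c3
  rw [e1] at e2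
  obtain ⟨j, hj⟩ := Nat.exists_eq_add_of_le h4
  rw [hj] at c3 h5 e2
  rw [show (({x | I.Src x} ∪ {x | I.Snk x}) \ {v}).ncard = 2 + j by omega] at b3
  have h6 := Nat.mul_le_mul_right (1 + j) hN
  generalize Nat.card K - 1 = k' at *
  nlinarith

omit [Finite V] in
theorem main [Finite K] [Nonempty K] (hN : g * (Nat.card K - 1) + 2 * Nat.card K ≤ N) (n : ℕ) :
    IH g N A K n := by
  induction n with
  | zero => exact fun V _ I h => absurd h (Nat.not_lt_zero _)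
  | succ n ih =>
    intro V _ I hV
    have ihV : IH g N A K (Nat.card V) := fun W _ J hW => ih W J (by omega)
    induction h1 : I.p1 using Nat.strong_induction_on generalizing I with
    | _ p ih1 =>
    subst h1
    suffices H : ∀ q (J : Ins A V), J.p2 = q → J.p1 ≤ I.p1 → J.Hyp g N → J.EE N K from
      H _ I rfl le_rfl
    intro q
    induction q using Nat.strong_induction_on with
    | _ q ih2 =>
    rintro J rfl hJ hyp v π hp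
    by_contra no
    exact Ctx.false ⟨hyp, hp, by have := Nat.card_pos (α := K); omega, ihV, fun I' h => ih1 _ (h.trans_le hJ) I' rfl,
      fun I' h h' => ih2 _ h' I' rfl (h.trans hJ), no⟩ hN

end Pool.Agent.Lib.MP_cbe08d_co.Mn
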