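import Pool.Agent.Lib.MP_cbe08d_co.Mn.Tight

/-! Reductions in a minimal counterexample: contractions. -/

set_option autoImplicit false

namespace Pool.Agent.Lib.MP_cbe08d_co.Mn

open Ins

variable {A V K : Type} [Finite V] [Finite A] {I : Ins A V} {g N : ℕ} {v : V} {π : A → K}

omit [Finite V] [Finite A] in
theorem Ctx.snk (C : Ctx I g N v π) : I.Snk v := ideal_compl_single.1 C.pre.nt.1

theorem Ctx.slack (C : Ctx I g N v π) {X : Set V} (hX : I.NT X) (h1 : X.Nontrivial)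
    (h2 : Xᶜ.Nontrivial) : N < (I.Ent X).ncard :=
  not_le.1 fun hd => C.no <| (em (v ∈ X)).elim (tightB C.ihV C.hyp C.pos C.pre hX hd h1 h2)
    (tightA C.ihV C.hyp C.pos C.pre hX hd h1 h2)

omit [Finite V] [Finite A] in
theorem ops_cyc {x y : V} (h1 : I.le x y) (h2 : I.le y x) (hne : x ≠ y) :
    ∃ p z, I.fr p z ∧ p ≠ z ∧ I.le z p := by
  induction h1 using Relation.ReflTransGen.head_induction_on with
  | refl => exact absurd rfl hne
  | @head a c e h ih =>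
    by_cases hac : a = c
    · subst hac
      exact ih h2 hne
    · exact ⟨a, c, e, hac, Relation.ReflTransGen.trans h h2⟩

omit [Finite A] in
theorem ops_quot (C : Ctx I g N v π) {p z : V} (e : I.fr p z) (hne : p ≠ z) {R : Set V}
    (hR : R = {p, z} ∨ ∃ v, v ∉ ({p, z} : Set V) ∧ R = {v}) (hp : I.Pre N R π) :
    I.Sol R π fun Y => {p, z} ⊆ Y ∨ Disjoint {p, z} Y :=
  quot C.ihV C.hyp (Set.insert_nonempty _ _) (by rw [Set.ncard_pair hne]; omega)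
    (con_pair (adj_iff.2 ⟨hne, Or.inl e⟩)) hR hp

theorem ops_in {p z : V} {Y : Set V} (h1 : p ∈ Y) (h2 : z ∈ Y) :
    {p, z} ⊆ Y ∨ Disjoint {p, z} Y :=
  Or.inl (Set.pair_subset h1 h2)

theorem ops_out {p z : V} {Y : Set V} (h1 : p ∉ Y) (h2 : z ∉ Y) :
    {p, z} ⊆ Y ∨ Disjoint {p, z} Y :=
  Or.inr (Set.disjoint_left.2 fun _ ha => ha.elim (fun e => e ▸ h1) fun e => e ▸ h2)

/-- Otherwise there is a free arc `x → z` with `z ≠ x` and `z ≤ x`; `quot` with `B = {x, z}`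
(`v ∉ B` because `v` is a sink); every ideal is saturated. -/
theorem Ctx.anti (C : Ctx I g N v π) {x y : V} (h1 : I.le x y) (h2 : I.le y x) : x = y := by
  by_contra hne
  obtain ⟨p, z, e, hpz, hl⟩ := ops_cyc h1 h2 hne
  have hv : v ∉ ({p, z} : Set V) := by
    rintro (rfl | rfl)
    · exact hpz (C.snk _ e).symm
    · exact hpz (C.snk.eq hl)
  obtain ⟨c, hc, hs⟩ := ops_quot C e hpz (Or.inr ⟨v, hv, rfl⟩) C.pre
  refine C.no ⟨c, hc, fun i Y hY _ => hs i Y hY ?_⟩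
  by_cases hp : p ∈ Y
  · exact ops_in hp (hY.1.le hl hp)
  · exact ops_out hp fun hz => hp (hY.1 _ _ e hz)

/-- Otherwise `quot` with `B = {x, m}`, `R = {v}`; an ideal `Y` with `x ∈ Y`, `m ∉ Y` is served
like `insert m Y`. -/
theorem Ctx.c1 (C : Ctx I g N v π) {m x : V} (h1 : ¬I.Src m) (h2 : ¬I.Snk m)
    (hx : ∀ z, I.fr z m → z = x ∨ z = m) : ∃ a, I.t a = m ∧ I.h a ≠ m := by
  by_contra hno
  have hno' : ∀ a, I.t a = m → I.h a = m := fun a ha => by_contra fun hb => hno ⟨a, ha, hb⟩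
  obtain ⟨z, hz⟩ := not_forall.1 h1
  obtain ⟨e, hzm⟩ := Classical.not_imp.1 hz
  obtain rfl : z = x := (hx z e).resolve_right hzm
  obtain ⟨w, hw⟩ := not_forall.1 h2
  obtain ⟨e', hwm⟩ := Classical.not_imp.1 hw
  have hvm : v ≠ m := fun h => h2 (h ▸ C.snk)
  have hv : v ∉ ({z, m} : Set V) := by
    rintro (rfl | h)
    · exact hvm (C.snk _ e).symm
    · exact hvm h
  obtain ⟨c, hc, hs⟩ := ops_quot C e hzm (Or.inr ⟨v, hv, rfl⟩) C.pre
  refine C.no ⟨c, hc, fun i Y hY _ => ?_⟩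
  by_cases hm : m ∈ Y
  · exact hs i Y hY (ops_in (hY.1 _ _ e hm) hm)
  by_cases hzY : z ∈ Y
  swap
  · exact hs i Y hY (ops_out hzY hm)
  have hY' : I.NT (insert m Y) := by
    refine ⟨fun a b f hb => ?_, Set.insert_nonempty _ _, w, fun hw' => ?_⟩
    · rcases hb with rfl | hb
      · exact (hx a f).elim (fun h => Or.inr (h ▸ hzY)) Or.inl
      · exact Or.inr (hY.1 a b f hb)
    · exact hw'.elim hwm fun h => hm (hY.1 _ _ e' h)
  rcases hs i _ hY' (ops_in (Or.inr hzY) (Or.inl rfl)) with ⟨d1, d2⟩ | ⟨a, ha, d⟩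
  · refine Or.inl ⟨d1.mono_right (Set.subset_insert _ _), fun a ha hi => ?_⟩
    exact (d2 a ha hi).resolve_left fun h => hvm ((mem_ent_compl.1 ha).1.symm.trans (hno' a h))
  · exact Or.inr ⟨a, ⟨ha.1.resolve_left fun h => ha.2 (Or.inl (hno' a h)),
      fun h => ha.2 (Or.inr h)⟩, d⟩

/-- Otherwise `quot` with `B = {m, y}`, and `R = {v}` if `y ≠ v`, `R = B` if `y = v` (then
`I.Ent Bᶜ ⊆ I.Ent {v}ᶜ`, with equality by `strong` and `pre.le`); an ideal `Y` with `m ∈ Y`,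
`y ∉ Y` is served like `Y \ {m}`. -/
theorem Ctx.c2 (C : Ctx I g N v π) {m y : V} (h1 : ¬I.Src m) (h2 : ¬I.Snk m)
    (hy : ∀ z, I.fr m z → z = y ∨ z = m) : ∃ a, I.h a = m ∧ I.t a ≠ m := by
  by_contra hno
  have hno' : ∀ a, I.h a = m → I.t a = m := fun a ha => by_contra fun hb => hno ⟨a, ha, hb⟩
  obtain ⟨w, hw⟩ := not_forall.1 h2
  obtain ⟨e, hwm⟩ := Classical.not_imp.1 hw
  obtain rfl : w = y := (hy w e).resolve_right hwm
  obtain ⟨z, hz⟩ := not_forall.1 h1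
  obtain ⟨e', hzm⟩ := Classical.not_imp.1 hz
  have hvm : v ≠ m := fun h => h2 (h ▸ C.snk)
  have key : I.Sol {v} π fun Y => {m, w} ⊆ Y ∨ Disjoint {m, w} Y := by
    by_cases hwv : w = v
    swap
    · exact ops_quot C e (Ne.symm hwm)
        (Or.inr ⟨v, fun h => h.elim hvm fun h => hwv (Eq.symm h), rfl⟩) C.pre
    subst hwv
    have nt : I.NT ({m, w} : Set V)ᶜ := by
      refine ⟨fun a b f hb ha => hb ?_, ⟨z, fun h => ?_⟩, ?_⟩
      · rcases ha with rfl | rfl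
        · exact (hy b f).symm
        · exact Or.inr (C.snk b f)
      · rcases h with h | rfl
        · exact hzm h
        · exact hvm (C.snk _ e').symm
      · rw [compl_compl]
        exact Set.insert_nonempty _ _
    have sub : I.Ent ({m, w} : Set V)ᶜ ⊆ I.Ent {w}ᶜ := fun a ha =>
      mem_ent_compl.2 ⟨(not_not.1 ha.2 : I.h a ∈ ({m, w} : Set V)).resolve_left fun h =>
        ha.1 (Or.inl (hno' a h)), fun h => ha.1 (Or.inr h)⟩
    have eq : I.Ent ({m, w} : Set V)ᶜ = I.Ent {w}ᶜ :=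
      Set.eq_of_subset_of_ncard_le sub (C.pre.le.trans (C.hyp.strong _ nt))
    obtain ⟨c, hc, hs⟩ := ops_quot C e (Ne.symm hwm) (Or.inl rfl)
      ⟨nt, eq ▸ C.pre.le, eq ▸ C.pre.onto⟩
    refine ⟨c, eq ▸ hc, fun i Y hY hS => ?_⟩
    rcases hs i Y hY hS with ⟨d1, d2⟩ | ⟨a, ha, d1, d2⟩
    · exact Or.inl ⟨d1.mono_left (Set.subset_insert _ _), eq ▸ d2⟩
    · exact Or.inr ⟨a, ha, d1, fun h => d2 (Or.inr h)⟩
  obtain ⟨c, hc, hs⟩ := key
  refine C.no ⟨c, hc, fun i Y hY _ => ?_⟩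
  by_cases hwY : w ∈ Y
  · exact hs i Y hY (ops_in (hY.1 _ _ e hwY) hwY)
  by_cases hm : m ∈ Y
  swap
  · exact hs i Y hY (ops_out hm hwY)
  have hY' : I.NT (Y \ {m}) := by
    refine ⟨fun a b f hb => ⟨hY.1 a b f hb.1, fun ha => ?_⟩, ⟨z, hY.1 _ _ e' hm, hzm⟩, w,
      fun h => hwY h.1⟩
    obtain rfl : a = m := ha
    exact (hy b f).elim (fun h => hwY (h ▸ hb.1)) hb.2
  rcases hs i _ hY' (ops_out (fun h => h.2 rfl) fun h => hwY h.1) with ⟨d1, d2⟩ | ⟨a, ha, d⟩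
  · exact Or.inl ⟨Set.disjoint_singleton_left.2 fun h =>
      Set.disjoint_singleton_left.1 d1 ⟨h, hvm⟩, fun a ha hi => (d2 a ha hi).1⟩
  · exact Or.inr ⟨a, ⟨ha.1.1, fun h => ha.2 ⟨h, fun h' => ha.1.2 (hno' a h')⟩⟩, d⟩

end Pool.Agent.Lib.MP_cbe08d_co.Mn
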