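import Pool.Agent.Lib.MP_cbe08d_co.Mn.Ops

/-! Reductions in a minimal counterexample: changes of unit arcs. -/

set_option autoImplicit false

namespace Pool.Agent.Lib.MP_cbe08d_co.Mn

open Ins

variable {A V K : Type} [Finite V] [Finite A] {I : Ins A V} {g N : ℕ} {v : V} {π : A → K}

section
omit [Finite V] [Finite A]
variable {a b : A} {x y : V} {X : Set V}

theorem ops2_h : (I.upd a x y).h a = x := by simp [upd]

theorem ops2_t : (I.upd a x y).t a = y := by simp [upd]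

theorem ops2_h' (h : b ≠ a) : (I.upd a x y).h b = I.h b := by simp [upd, h]

theorem ops2_t' (h : b ≠ a) : (I.upd a x y).t b = I.t b := by simp [upd, h]

theorem ops2_ent : a ∈ (I.upd a x y).Ent X ↔ y ∈ X ∧ x ∉ X := by
  rw [Ent, Set.mem_ofPred_eq, ops2_h, ops2_t]

theorem ops2_ent' (h : b ≠ a) : b ∈ (I.upd a x y).Ent X ↔ b ∈ I.Ent X := by
  rw [Ent, Set.mem_ofPred_eq, ops2_h' h, ops2_t' h]
  rfl

theorem ops2_nt1 (hX : I.Ideal X) (hx : x ∈ X) (h : ¬I.Src x) : X.Nontrivial := by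
  obtain ⟨z, hz⟩ := not_forall.1 h
  obtain ⟨h1, h2⟩ := Classical.not_imp.1 hz
  exact ⟨z, hX _ _ h1 hx, x, hx, h2⟩

theorem ops2_nt2 (hX : I.Ideal X) (hx : x ∉ X) (h : ¬I.Snk x) : Xᶜ.Nontrivial := by
  obtain ⟨z, hz⟩ := not_forall.1 h
  obtain ⟨h1, h2⟩ := Classical.not_imp.1 hz
  exact ⟨z, fun hz => hx (hX _ _ h1 hz), x, hx, h2⟩

end

omit [Finite V] [Finite A] in
theorem cl_upd {a : A} {x y : V} (h : I.Add g x y) : (I.upd a x y).Cl g := by
  obtain ⟨⟨T, i, G, l, hG, h1, h2⟩, T', i', G', l', hG', h3, h4⟩ := h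
  refine ⟨⟨T, i, G, l, hG, h1.ne, h1.cn, fun b => ?_⟩,
    T', i', G', l', hG', h3.ne, h3.cn, fun b => ?_⟩
  · rcases eq_or_ne b a with rfl | hb
    · rw [ops2_h, ops2_t]
      exact h2
    · rw [ops2_h' hb, ops2_t' hb]
      exact h1.arc b
  · change I.rev.Lk G' l' ((I.upd a x y).t b) ((I.upd a x y).h b)
    rcases eq_or_ne b a with rfl | hb
    · rw [ops2_h, ops2_t]
      exact h4.symm
    · rw [ops2_h' hb, ops2_t' hb]
      exact h3.arc b

omit [Finite V] [Finite A] in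
theorem add_self (h : I.Cl g) (x : V) : I.Add g x x := add_le h .refl

/-- Replace the arc `a` by a weaker arc `x → y`, same colouring. -/
theorem Ctx.weak (C : Ctx I g N v π) {a : A} {x y : V} (hne : I.h a ≠ I.t a)
    (w1 : ∀ X, I.Ideal X → y ∈ X → x ∉ X → a ∈ I.Ent X)
    (w2 : ∀ X, I.NT X → a ∈ I.Ent X → (y ∈ X ∧ x ∉ X) ∨ N < (I.Ent X).ncard)
    (w3 : x = y ∨ ∃ X, I.Ideal X ∧ a ∈ I.Ent X ∧ ¬(y ∈ X ∧ x ∉ X))
    (w4 : ∃ u s, I.le x u ∧ I.le s u ∧ I.le s y) (w5 : I.Add g x y)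
    (w6 : (I.h a = v ∧ x = v ∧ y ≠ v ∧ I.le (I.t a) y) ∨ (I.h a ≠ v ∧ x ≠ v)) : False := by
  have sub : ∀ X, I.Ideal X → (I.upd a x y).Ent X ⊆ I.Ent X := fun X hX b hb => by
    rcases eq_or_ne b a with rfl | h
    exacts [w1 X hX (ops2_ent.1 hb).1 (ops2_ent.1 hb).2, (ops2_ent' h).1 hb]
  have hyp : (I.upd a x y).Hyp g N := by
    refine ⟨fun X hX => ?_, fun b => ?_, cl_upd w5⟩
    · by_cases h : a ∈ I.Ent X ∧ ¬(y ∈ X ∧ x ∉ X)
      · have h1 := (w2 X hX h.1).resolve_left h.2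
        have h2 := Set.ncard_sdiff_singleton_add_one h.1
        have h3 : (I.Ent X \ {a}).ncard ≤ ((I.upd a x y).Ent X).ncard :=
          Set.ncard_le_ncard fun b hb => (ops2_ent' hb.2).2 hb.1
        omega
      · refine (C.hyp.strong X hX).trans (Set.ncard_le_ncard fun b hb => ?_)
        rcases eq_or_ne b a with rfl | h'
        exacts [ops2_ent.2 (not_not.1 fun h' => h ⟨hb, h'⟩), (ops2_ent' h').2 hb]
    · rcases eq_or_ne b a with rfl | h
      · rwa [ops2_h, ops2_t]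
      · rw [ops2_h' h, ops2_t' h]
        exact C.hyp.loc b
  have s1 : {b | (I.upd a x y).h b ≠ (I.upd a x y).t b} ⊆ {b | I.h b ≠ I.t b} := fun b hb => by
    rcases eq_or_ne b a with rfl | h
    · exact hne
    · rwa [Set.mem_ofPred_eq, ops2_h' h, ops2_t' h] at hb
  have ee : (I.upd a x y).EE N K := by
    rcases w3 with rfl | ⟨X, h1, h2, h3⟩
    · exact C.ih1 _ (Set.ncard_lt_ncard ⟨s1, fun h => h hne (ops2_h.trans ops2_t.symm)⟩) hyp
    · exact C.ih2 _ (Set.ncard_le_ncard s1) (Set.ncard_lt_ncard ⟨fun p hp => ⟨hp.1, sub _ hp.1 hp.2⟩,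
        fun h => h3 (ops2_ent.1 (h (show (a, X) ∈ _ from ⟨h1, h2⟩)).2)⟩) hyp
  have e : (I.upd a x y).Ent {v}ᶜ = I.Ent {v}ᶜ := by
    ext b
    rcases eq_or_ne b a with rfl | h
    · rw [mem_ent_compl, mem_ent_compl, ops2_h, ops2_t]
      rcases w6 with ⟨h1, h2, h3, -⟩ | ⟨h1, h2⟩
      · exact iff_of_true ⟨h2, h3⟩ ⟨h1, h1 ▸ hne.symm⟩
      · exact iff_of_false (fun h => h2 h.1) fun h => h1 h.1
    · exact ops2_ent' h
  obtain ⟨c, h1, h2⟩ := ee v π ⟨C.pre.nt, e ▸ C.pre.le, e ▸ C.pre.onto⟩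
  refine C.no ⟨c, e ▸ h1, fun i Y hY _ => (h2 i Y hY trivial).imp (fun h => ⟨h.1, fun b hb hi => ?_⟩)
    fun ⟨b, h3, h4, h5⟩ => ⟨b, sub Y hY.1 h3, h4, ?_⟩⟩
  · have h3 := h.2 b (e ▸ hb) hi
    rcases eq_or_ne b a with rfl | h'
    · rw [ops2_t] at h3
      exact hY.1.le (w6.resolve_right fun h => h.1 (mem_ent_compl.1 hb).1).2.2.2 h3
    · rwa [ops2_t' h'] at h3
  · rcases eq_or_ne b a with rfl | h'
    · rw [ops2_h] at h5
      exact (w6.resolve_left fun h => h5 h.2.1).1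
    · rwa [ops2_h' h'] at h5

theorem Ctx.hub (C : Ctx I g N v π) {a : A} (h : I.h a ≠ I.t a) :
    I.Src (I.t a) ∨ I.Snk (I.h a) := by
  by_contra hn
  obtain ⟨h1, h2⟩ := not_or.1 hn
  have hv : I.h a ≠ v := fun e => h2 (e ▸ C.snk)
  exact C.weak (x := I.h a) (y := I.h a) h (fun _ _ h h' => absurd h h')
    (fun X hX ha => Or.inr (C.slack hX (ops2_nt1 hX.1 ha.1 h1) (ops2_nt2 hX.1 ha.2 h2)))
    (Or.inl rfl) ⟨_, _, .refl, .refl, .refl⟩ (add_self C.hyp.cl _) (Or.inr ⟨hv, hv⟩)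

theorem Ctx.r1 (C : Ctx I g N v π) {a : A} {x : V} (h2 : ¬I.Snk (I.h a)) (hne : I.h a ≠ I.t a)
    (hx : I.le x (I.h a)) (hx1 : x ≠ I.h a) (hx2 : x ≠ I.t a) : ¬I.Add g x (I.t a) := by
  intro h
  obtain ⟨u, s, l1, l2, l3⟩ := C.hyp.loc a
  refine C.weak hne (fun X hX h1 h2 => ⟨h1, fun h3 => h2 (hX.le hx h3)⟩) (fun X hX ha => ?_)
    (Or.inr ⟨_, (ideal_down (I.t a)).union (ideal_down x), ⟨Or.inl .refl, ?_⟩,
      fun h => h.2 (Or.inr .refl)⟩) ⟨u, s, Relation.ReflTransGen.trans hx l1, l2, l3⟩ h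
    (Or.inr ⟨fun e => h2 (e ▸ C.snk), fun e => hx1 (C.snk.eq (e ▸ hx) ▸ e)⟩)
  · by_cases hxX : x ∈ X
    · exact Or.inr (C.slack hX ⟨x, hxX, _, ha.1, hx2⟩ (ops2_nt2 hX.1 ha.2 h2))
    · exact Or.inl ⟨ha.1, hxX⟩
  · rintro (h | h)
    exacts [hne (((C.hub hne).resolve_right h2).eq h), hx1 (C.anti hx h)]

theorem Ctx.r2 (C : Ctx I g N v π) {a : A} {y : V} (h1 : ¬I.Src (I.t a)) (hne : I.h a ≠ I.t a)
    (hy : I.le (I.t a) y) (hy1 : y ≠ I.t a) (hy2 : y ≠ I.h a) : ¬I.Add g (I.h a) y := by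
  intro h
  obtain ⟨u, s, l1, l2, l3⟩ := C.hyp.loc a
  refine C.weak hne (fun X hX h1 h2 => ⟨hX.le hy h1, h2⟩) (fun X hX ha => ?_)
    (Or.inr ⟨_, ideal_down (I.t a), ⟨.refl, fun h => hne (((C.hub hne).resolve_left h1).eq h).symm⟩,
      fun h => hy1 (C.anti h.1 hy)⟩) ⟨u, s, l1, l2, Relation.ReflTransGen.trans l3 hy⟩ h ?_
  · by_cases hyX : y ∈ X
    · exact Or.inl ⟨hyX, ha.2⟩
    · exact Or.inr (C.slack hX (ops2_nt1 hX.1 ha.1 h1) ⟨y, hyX, _, ha.2, hy2⟩)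
  · rcases eq_or_ne (I.h a) v with e | e
    exacts [Or.inl ⟨e, e, e ▸ hy2, hy⟩, Or.inr ⟨e, e⟩]

/-- Merge `a : u → m` and `b : m → s` (with `s ≤ m ≤ u`) into `u → s`: the instance
`(I.upd a u s).upd b m m`; no ideal loses an arc; give `b` the colour of `a`. -/
theorem Ctx.r3 (C : Ctx I g N v π) {a b : A} (hm : I.t a = I.h b) (ha : I.h a ≠ I.t a)
    (hb : I.h b ≠ I.t b) (h1 : I.fr (I.t a) (I.h a)) (h2 : I.fr (I.t b) (I.h b)) :
    False := by
  classical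
  have h : I.Add g (I.h a) (I.t b) := (add_le C.hyp.cl (.tail (.single h2) (hm ▸ h1))).symm
  have hab : a ≠ b := fun e => ha (by rw [hm, e])
  have mv : I.h b ≠ v := fun e => ha (C.snk _ (by rwa [hm, e] at h1) ▸ (hm.trans e).symm)
  have sv : I.t b ≠ v := fun e => mv (C.snk _ (e ▸ h2))
  set J := (I.upd a (I.h a) (I.t b)).upd b (I.h b) (I.h b) with hJ
  have ja : ∀ X, a ∈ J.Ent X ↔ I.t b ∈ X ∧ I.h a ∉ X := fun X => (ops2_ent' hab).trans ops2_ent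
  have jb : ∀ X, b ∉ J.Ent X := fun X h => (ops2_ent.1 h).2 (ops2_ent.1 h).1
  have jc : ∀ X c, c ≠ a → c ≠ b → (c ∈ J.Ent X ↔ c ∈ I.Ent X) := fun X c h h' =>
    (ops2_ent' h').trans (ops2_ent' h)
  have jh : ∀ c, J.h c = I.h c := fun c => by
    rcases eq_or_ne c b with rfl | h'
    · exact ops2_h
    · rw [hJ, ops2_h' h']
      rcases eq_or_ne c a with rfl | h
      exacts [ops2_h, ops2_h' h]
  have jt : ∀ c, c ≠ a → c ≠ b → J.t c = I.t c := fun c h h' => (ops2_t' h').trans (ops2_t' h)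
  have ta : J.t a = I.t b := (ops2_t' hab).trans ops2_t
  have tb : J.t b = I.h b := ops2_t
  have hyp : J.Hyp g N := by
    refine ⟨fun X hX => (C.hyp.strong X hX).trans (Set.ncard_le_ncard_of_injOn
      (fun c => if c = b then a else c) (fun c hc => ?_) fun c hc d hd e => ?_), fun c => ?_,
      cl_upd (add_self (cl_upd h) _)⟩
    · split_ifs with e
      · subst e
        exact (ja X).2 ⟨hc.1, fun h => hc.2 (hm ▸ hX.1 _ _ h1 h)⟩
      · rcases eq_or_ne c a with rfl | e'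
        exacts [(ja X).2 ⟨hX.1 _ _ h2 (hm ▸ hc.1), hc.2⟩, (jc X c e' e).2 hc]
    · dsimp only at e
      split_ifs at e with e1 e2 e2
      · rw [e1, e2]
      · subst e1 e
        exact absurd (hm ▸ hd.1) hc.2
      · subst e2 e
        exact absurd (hm ▸ hc.1) hd.2
      · exact e
    · rw [jh]
      rcases eq_or_ne c b with rfl | h'
      · exact ⟨_, _, .refl, .refl, tb ▸ .refl⟩
      · rcases eq_or_ne c a with rfl | h
        · exact ⟨_, I.t b, .refl, .tail (.single h2) (hm ▸ h1), ta ▸ .refl⟩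
        · rw [jt c h h']
          exact C.hyp.loc c
  have ee : J.EE N K := by
    refine C.ih1 _ (Set.ncard_lt_ncard ⟨fun c hc => ?_, fun h => h hb ((jh b).trans tb.symm)⟩) hyp
    rcases eq_or_ne c b with rfl | h'
    · exact hb
    · rcases eq_or_ne c a with rfl | h
      · exact ha
      · rwa [Set.mem_ofPred_eq, jh, jt c h h'] at hc
  have nb : b ∉ I.Ent {v}ᶜ := fun h => mv (mem_ent_compl.1 h).1
  have e : J.Ent {v}ᶜ = I.Ent {v}ᶜ := by
    ext c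
    rcases eq_or_ne c b with rfl | h'
    · exact iff_of_false (jb _) nb
    · rcases eq_or_ne c a with rfl | h
      · exact (ja _).trans (and_congr_left' (iff_of_true sv (hm ▸ mv)))
      · exact jc _ c h h'
  obtain ⟨c, c1, c2⟩ := ee v π ⟨C.pre.nt, e ▸ C.pre.le, e ▸ C.pre.onto⟩
  rw [e] at c1
  refine C.no ⟨Function.update c b (c a), fun d hd => ?_, fun i Y hY _ => ?_⟩
  · rw [Function.update_of_ne (ne_of_mem_of_not_mem hd nb), c1 d hd]
  by_cases hbY : b ∈ I.Ent Y ∧ c a = i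
  · exact Or.inr ⟨b, hbY.1, by rw [Function.update_self, hbY.2], mv⟩
  refine (c2 i Y hY trivial).imp (fun h => ⟨h.1, fun d hd hi => ?_⟩) fun ⟨d, h3, h4, h5⟩ => ?_
  · have h3 := h.2 d (e ▸ hd) hi
    rcases eq_or_ne d a with rfl | h'
    · exact by_contra fun hn => hbY ⟨⟨ta ▸ h3, hm ▸ hn⟩, (c1 d hd).trans hi⟩
    · rwa [jt d h' fun e => nb (e ▸ hd)] at h3
  · have h6 : d ≠ b := fun e => jb Y (e ▸ h3)
    refine ⟨d, ?_, by rw [Function.update_of_ne h6, h4], jh d ▸ h5⟩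
    rcases eq_or_ne d a with rfl | h'
    · exact ⟨by_contra fun hn => hbY ⟨⟨((ja Y).1 h3).1, hm ▸ hn⟩, h4⟩, ((ja Y).1 h3).2⟩
    · exact (jc Y d h' h6).1 h3

/-- Otherwise choose an injection `e` of `K` into these arcs, turn the arcs `e i` into loops, add
the free arc `x → y`, and give `e i` the colour `i`. -/
theorem Ctx.mult [Finite K] [Nonempty K] (C : Ctx I g N v π) {x y : V} (hx : x ≠ v) (hxy : x ≠ y) :
    {a | I.h a = x ∧ I.t a = y}.ncard < Nat.card K := by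
  classical
  by_contra hn
  have := Fintype.ofFinite K
  have := Fintype.ofFinite {a | I.h a = x ∧ I.t a = y}
  obtain ⟨e'⟩ : Nonempty (K ↪ {a | I.h a = x ∧ I.t a = y}) :=
    Function.Embedding.nonempty_of_card_le (by
      rw [← Nat.card_eq_fintype_card, ← Nat.card_eq_fintype_card, Nat.card_coe_set_eq]
      exact not_lt.1 hn)
  let e : K → A := fun i => e' i
  have ei : Function.Injective e := Subtype.val_injective.comp e'.injective
  have eh : ∀ i, I.h (e i) = x := fun i => (e' i).2.1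
  have et : ∀ i, I.t (e i) = y := fun i => (e' i).2.2
  let J : Ins A V := ⟨fun p q => I.fr p q ∨ (p = x ∧ q = y), I.h,
    fun a => if ∃ i, e i = a then x else I.t a⟩
  have t1 : ∀ i, J.t (e i) = x := fun i => if_pos ⟨i, rfl⟩
  have t2 : ∀ a, (¬∃ i, e i = a) → J.t a = I.t a := fun a h => if_neg h
  have le : ∀ {p q}, I.le p q → J.le p q := fun h =>
    Relation.ReflTransGen.mono (fun _ _ => Or.inl) _ _ h
  have ne : ∀ X i, e i ∉ J.Ent X := fun X i h => h.2 (by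
    have h1 := h.1
    rwa [t1, ← eh i] at h1)
  have ent : ∀ X, J.Ideal X → J.Ent X = I.Ent X := fun X hX => by
    ext a
    by_cases h : ∃ i, e i = a
    · obtain ⟨i, rfl⟩ := h
      exact iff_of_false (ne X i) fun h => h.2 (hX _ _ (Or.inr ⟨eh i, et i⟩) h.1)
    · exact and_congr_left' (by rw [t2 a h])
  have i0 : K := Classical.arbitrary K
  have hyp : J.Hyp g N := by
    refine ⟨fun X hX => ent X hX.1 ▸ C.hyp.strong X ⟨fun a b h => hX.1 a b (Or.inl h), hX.2⟩,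
      fun a => ?_, C.hyp.cl.tr (f := id) Function.surjective_id (fun _ _ h => .single (Or.inl h))
        (fun p q h => (show p = q from h) ▸ .refl) (fun p q h => ⟨p, q, rfl, rfl, ?_⟩) fun a => ?_⟩
    · by_cases h : ∃ i, e i = a
      · obtain ⟨i, rfl⟩ := h
        exact ⟨x, x, eh i ▸ .refl, .refl, (t1 i).symm ▸ .refl⟩
      · obtain ⟨u, s, l1, l2, l3⟩ := C.hyp.loc a
        exact ⟨u, s, le l1, le l2, (t2 a h).symm ▸ le l3⟩
    · rcases h with h | ⟨rfl, rfl⟩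
      · exact adj_fr h
      · exact eh i0 ▸ et i0 ▸ adj_arc (e i0)
    · by_cases h' : ∃ i, e i = a
      · obtain ⟨i, rfl⟩ := h'
        exact ⟨x, x, (eh i).symm, (t1 i).symm, Or.inl rfl⟩
      · exact ⟨_, _, rfl, (t2 a h').symm, adj_arc (I := I) a⟩
  have ee : J.EE N K := by
    refine C.ih1 _ (Set.ncard_lt_ncard ⟨fun a ha => ?_, fun h =>
      h (show e i0 ∈ _ from (eh i0).trans_ne (et i0 ▸ hxy)) ((eh i0).trans (t1 i0).symm)⟩) hyp
    by_cases h : ∃ i, e i = a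
    · obtain ⟨i, rfl⟩ := h
      exact (eh i).trans_ne (et i ▸ hxy)
    · rwa [Set.mem_ofPred_eq, t2 a h] at ha
  have iv : J.Ideal {v}ᶜ := fun p q h hq => h.elim (fun h => C.pre.nt.1 p q h hq) fun h => h.1 ▸ hx
  have ev := ent _ iv
  obtain ⟨c, c1, c2⟩ := ee v π ⟨⟨iv, C.pre.nt.2⟩, ev ▸ C.pre.le, ev ▸ C.pre.onto⟩
  have nr : ∀ {X a}, a ∈ J.Ent X → ¬∃ i, e i = a := fun h ⟨i, hi⟩ => ne _ i (hi ▸ h)
  refine C.no ⟨Function.extend e id c, fun a ha => ?_, fun i Y hY _ => ?_⟩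
  · rw [Function.extend_apply' _ _ _ (nr (ev ▸ ha)), c1 a (ev ▸ ha)]
  by_cases h : y ∈ Y ∧ x ∉ Y
  · exact Or.inr ⟨e i, ⟨et i ▸ h.1, eh i ▸ h.2⟩, ei.extend_apply _ _ i, eh i ▸ hx⟩
  have iY : J.Ideal Y := fun p q h' hq => h'.elim (fun h' => hY.1 p q h' hq)
    fun h' => h'.1 ▸ not_not.1 fun hn => h ⟨h'.2 ▸ hq, hn⟩
  refine (c2 i Y ⟨iY, hY.2⟩ trivial).imp (fun h => ⟨h.1, fun a ha hi => ?_⟩)
    fun ⟨a, h3, h4, h5⟩ => ⟨a, ent Y iY ▸ h3, by rw [Function.extend_apply' _ _ _ (nr h3), h4], h5⟩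
  exact t2 a (nr (ev ▸ ha)) ▸ h.2 a (ev ▸ ha) hi

end Pool.Agent.Lib.MP_cbe08d_co.Mn
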