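import Pool.Agent.Lib.MP_cbe08d_co.Mn.Ops2

/-! Middle vertices carry no arcs. -/

set_option autoImplicit false

namespace Pool.Agent.Lib.MP_cbe08d_co.Mn

open Ins

variable {A V K : Type} [Finite V] [Finite A] {I : Ins A V} {g N : ℕ} {v : V} {π : A → K}

/-- an arc that leaves a middle vertex ends at its only lower neighbour -/
theorem Ctx.low (C : Ctx I g N v π) {a : A} (ha : I.h a ≠ I.t a) (h1 : ¬I.Src (I.h a))
    (h2 : ¬I.Snk (I.h a)) {z : V} (hz : I.fr z (I.h a)) : z = I.t a ∨ z = I.h a := by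
  by_contra hn
  obtain ⟨n1, n2⟩ := not_or.1 hn
  obtain ⟨⟨T, i, G, l, hG, hl⟩, T', i', G', l', hG', hl'⟩ := C.hyp.cl
  obtain ⟨l, hl, hs⟩ := hl.norm fun _ _ => C.anti
  obtain ⟨x, x1, x2, x3, x4⟩ :=
    hl.slide hs ((C.hub ha).resolve_right h2) h1 (hl.arc a) hz n2 n1
  exact C.r1 h2 ha x1 x2 x3 ⟨⟨T, i, G, l, hG, hl, x4⟩, T', i', G', l', hG', hl',
    hl'.lk_up (rev_le.2 x1) (hl'.arc a).symm⟩

/-- an arc that enters a middle vertex starts at its only upper neighbour -/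
theorem Ctx.high (C : Ctx I g N v π) {a : A} (ha : I.h a ≠ I.t a) (h1 : ¬I.Src (I.t a))
    (h2 : ¬I.Snk (I.t a)) {z : V} (hz : I.fr (I.t a) z) : z = I.h a ∨ z = I.t a := by
  by_contra hn
  obtain ⟨n1, n2⟩ := not_or.1 hn
  obtain ⟨⟨T', i', G', l', hG', hl'⟩, T, i, G, l, hG, hl⟩ := C.hyp.cl
  obtain ⟨l, hl, hs⟩ := hl.norm fun _ _ a b => C.anti (rev_le.1 b) (rev_le.1 a)
  obtain ⟨x, x1, x2, x3, x4⟩ :=
    hl.slide hs (s := I.h a) ((C.hub ha).resolve_left h1) h2 (hl.arc a) hz n2 n1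
  exact C.r2 h1 ha (rev_le.1 x1) x2 x3
    ⟨⟨T', i', G', l', hG', hl', (hl'.lk_up (rev_le.1 x1) (hl'.arc a).symm).symm⟩,
      T, i, G, l, hG, hl, x4.symm⟩

theorem Ctx.clean (C : Ctx I g N v π) {m : V} (h1 : ¬I.Src m) (h2 : ¬I.Snk m)
    {a : A} (ha : I.h a ≠ I.t a) : I.h a ≠ m ∧ I.t a ≠ m := by
  have key : ∀ c b, I.t c = m → I.h c ≠ m → I.h b = m → I.t b ≠ m → False := by
    intro c b e1 e2 e3 e4
    simp only [Src, Snk, not_forall] at h1 h2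
    obtain ⟨x, hx, hxm⟩ := h1
    obtain ⟨y, hy, hym⟩ := h2
    have h1' : ¬I.Src m := fun e => hxm (e x hx)
    have h2' : ¬I.Snk m := fun e => hym (e y hy)
    have f1 := (C.low (e3 ▸ e4.symm) (e3 ▸ h1') (e3 ▸ h2') (e3 ▸ hx)).resolve_right (e3 ▸ hxm)
    have f2 := (C.high (e1 ▸ e2) (e1 ▸ h1') (e1 ▸ h2') (e1 ▸ hy)).resolve_right (e1 ▸ hym)
    refine C.r3 (e1.trans e3.symm) (e1 ▸ e2) (e3 ▸ e4.symm) ?_ ?_
    · rwa [e1, ← f2]
    · rwa [e3, ← f1]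
  refine ⟨fun e => ?_, fun e => ?_⟩
  · subst e
    obtain ⟨c, c1, c2⟩ := C.c1 h1 h2 fun z hz => C.low ha h1 h2 hz
    exact key c a c1 c2 rfl ha.symm
  · subst e
    obtain ⟨c, c1, c2⟩ := C.c2 h1 h2 fun z hz => C.high ha h1 h2 hz
    exact key a c rfl ha c1 c2

/-- no vertex is a source and a sink -/
theorem Ctx.not_both (C : Ctx I g N v π) {x : V} (h1 : I.Src x) : ¬I.Snk x := by
  intro h2
  have h3 : ({x}ᶜ : Set V).Nonempty := by
    by_cases e : v = x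
    · exact e ▸ C.pre.nt.2.1
    · exact ⟨v, e⟩
  obtain ⟨a, a1, a2⟩ := Set.nonempty_of_ncard_ne_zero (C.pos.trans_le
    (C.hyp.strong {x} ⟨ideal_single.2 h1, Set.singleton_nonempty x, h3⟩)).ne'
  obtain ⟨u, s, b1, b2, b3⟩ := C.hyp.loc a
  rw [a1] at b3
  rw [h1.eq b3] at b2
  rw [h2.eq b2] at b1
  exact a2 (h1.eq b1)

theorem red_min (r : V → V → Prop)
    (h : ∀ x y, Relation.ReflTransGen r x y → Relation.ReflTransGen r y x → x = y) (x : V) :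
    ∃ s, (∀ z, r z s → z = s) ∧ Relation.ReflTransGen r s x := by
  obtain ⟨s, h1, h2⟩ := Set.exists_min_image {z | Relation.ReflTransGen r z x}
    (fun z => {w | Relation.ReflTransGen r w z}.ncard) (Set.toFinite _) ⟨x, .refl⟩
  refine ⟨s, fun z hz => h _ _ (.single hz) ?_, h1⟩
  have := Set.eq_of_subset_of_ncard_le (s := {w | Relation.ReflTransGen r w z})
    (t := {w | Relation.ReflTransGen r w s}) (fun w hw => hw.tail hz) (h2 z (.head hz h1))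
  exact (Set.ext_iff.1 this s).2 .refl

theorem Ctx.exists_src (C : Ctx I g N v π) (x : V) : ∃ s, I.Src s ∧ I.le s x :=
  red_min I.fr (fun _ _ => C.anti) x

theorem Ctx.exists_snk (C : Ctx I g N v π) (x : V) : ∃ u, I.Snk u ∧ I.le x u := by
  obtain ⟨u, h1, h2⟩ := red_min I.rev.fr (fun _ _ a b => C.anti (rev_le.1 b) (rev_le.1 a)) x
  exact ⟨u, h1, rev_le.1 h2⟩

theorem Ctx.three (C : Ctx I g N v π) : 3 ≤ {x | I.Src x}.ncard + {x | I.Snk x}.ncard := by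
  by_contra hn
  obtain ⟨s, hs, -⟩ := C.exists_src v
  have h1 := (Set.ncard_pos (s := {x | I.Src x})).2 ⟨s, hs⟩
  have h2 := (Set.ncard_pos (s := {x | I.Snk x})).2 ⟨v, C.snk⟩
  have h3 := (Set.ncard_le_one (s := {x | I.Src x})).1 (by omega)
  have h4 := (Set.ncard_le_one (s := {x | I.Snk x})).1 (by omega)
  refine C.no ⟨π, fun _ _ => rfl, fun i Y hY _ => Or.inl ⟨?_, fun a ha _ => ?_⟩⟩
  · obtain ⟨y, hy⟩ := hY.2.2
    obtain ⟨z, z1, z2⟩ := C.exists_snk y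
    exact Set.disjoint_singleton_left.2 fun hv => hy (hY.1.le z2 (h4 v C.snk z z1 ▸ hv))
  obtain ⟨a1, a2⟩ := mem_ent_compl.1 ha
  by_cases h5 : I.Src (I.t a)
  · obtain ⟨y, hy⟩ := hY.2.1
    obtain ⟨z, z1, z2⟩ := C.exists_src y
    exact h3 z z1 _ h5 ▸ hY.1.le z2 hy
  exact absurd rfl (C.clean h5 (fun h6 => a2 (h4 _ h6 v C.snk)) (a1 ▸ a2.symm)).2

end Pool.Agent.Lib.MP_cbe08d_co.Mn
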