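import Pool.Agent.Lib.MP_cbe08d_co.Mn.Quot

/-! Decomposition along a tight ideal. -/

set_option autoImplicit false

namespace Pool.Agent.Lib.MP_cbe08d_co.Mn.Ins

variable {A V K : Type} [Finite V] [Finite A] {I : Ins A V} {g N : ℕ} {X : Set V}

omit [Finite V] [Finite A] in
/-- an arc that leaves an ideal is useless on one side -/
theorem Hyp.leave (hI : I.Hyp g N) (hX : I.Ideal X) (a : A) :
    (∃ x ∈ X, I.le x (I.t a)) ∨ ∃ y, y ∉ X ∧ I.le (I.h a) y := by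
  obtain ⟨u, s, h1, h2, h3⟩ := hI.loc a
  by_cases hu : u ∈ X
  · exact Or.inl ⟨s, hX.le h2 hu, h3⟩
  · exact Or.inr ⟨u, hu, h1⟩

omit [Finite V] [Finite A] in
theorem tight_glue (hI : I.Hyp g N) (hX : I.Ideal X) {c1 c2 : A → K}
    (he : ∀ a ∈ I.Ent X, c1 a = c2 a) : ∃ c : A → K, (∀ a, I.h a ∉ X → c a = c1 a) ∧
      (∀ a, I.t a ∈ X → c a = c2 a) ∧
      (∀ Y, I.Ideal Y → Disjoint X Y → ∀ a ∈ I.Ent Y, c a = c1 a) ∧
      ∀ Y, I.Ideal Y → Xᶜ ⊆ Y → ∀ a ∈ I.Ent Y, c a = c2 a := by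
  classical
  refine ⟨fun a => if I.t a ∈ X ∨ (I.h a ∈ X ∧ ∃ x ∈ X, I.le x (I.t a)) then c2 a else c1 a,
    fun a ha => ?_, fun a ha => if_pos (Or.inl ha), fun Y hY hd a ha => if_neg ?_,
    fun Y hY hd a ha => if_pos ?_⟩
  · by_cases ht : I.t a ∈ X
    · exact (if_pos (Or.inl ht)).trans (he a ⟨ht, ha⟩).symm
    · exact if_neg fun h => h.elim ht fun h => ha h.1
  · rintro (h | ⟨-, x, hx, h⟩)
    · exact Set.disjoint_left.1 hd h ha.1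
    · exact Set.disjoint_left.1 hd hx (hY.le h ha.1)
  · refine Or.inr ⟨by_contra fun h => ha.2 (hd h), (hI.leave hX a).resolve_right ?_⟩
    rintro ⟨y, hy, h⟩
    exact ha.2 (hY.le h (hd hy))

omit [Finite V] [Finite A] in
theorem tight_cases (hX : I.NT X) {Y : Set V} (hY : I.NT Y) :
    Disjoint X Y ∨ Xᶜ ⊆ Y ∨ (I.NT (Y ∩ X) ∧ I.NT (Y ∪ X)) := by
  by_cases h1 : Disjoint X Y
  · exact Or.inl h1
  by_cases h2 : Xᶜ ⊆ Y
  · exact Or.inr (Or.inl h2)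
  obtain ⟨x, hx, hx'⟩ := Set.not_disjoint_iff.1 h1
  obtain ⟨y, hy, hy'⟩ := Set.not_subset.1 h2
  exact Or.inr (Or.inr ⟨⟨hY.1.inter hX.1, ⟨x, hx', hx⟩, y, fun h => hy h.2⟩,
    hY.1.union hX.1, ⟨x, Or.inr hx⟩, y, fun h => h.elim hy' hy⟩)

omit [Finite A] in
theorem tight_lt {B : Set V} (h : B.Nontrivial) : Nat.card V + 1 < Nat.card V + B.ncard :=
  Nat.add_lt_add_left (Set.one_lt_ncard_iff_nontrivial.2 h) _

theorem tightA (ih : IH g N A K (Nat.card V)) (hI : I.Hyp g N) (hN : 0 < N) {v : V} {π : A → K}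
    (hp : I.Pre N {v} π) (hX : I.NT X) (hd : (I.Ent X).ncard ≤ N) (h1 : X.Nontrivial)
    (h2 : Xᶜ.Nontrivial) (hv : v ∉ X) : I.Sol {v} π fun _ => True := by
  obtain ⟨c1, e1, s1⟩ := quot ih hI hX.2.1 (tight_lt h1) (hI.con hN hX hd) (Or.inr ⟨v, hv, rfl⟩) hp
  have hh : ∀ a ∈ I.Ent {v}ᶜ, I.h a ∉ X := fun a ha => (mem_ent_compl.1 ha).1 ▸ hv
  obtain ⟨c2, e2, s2⟩ := quot_snk ih hI hN hX hd (tight_lt h2) (π := c1) fun i => by
    rcases s1 i X hX (Or.inl subset_rfl) with ⟨-, h⟩ | ⟨a, ha, h, -⟩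
    · obtain ⟨a, ha, h'⟩ := hp.onto i
      exact ⟨a, ⟨h a ha h', hh a ha⟩, (e1 a ha).trans h'⟩
    · exact ⟨a, ha, h⟩
  obtain ⟨c, g1, g2, g3, g4⟩ := tight_glue hI hX.1 fun a ha => (e2 a ha).symm
  have hne : ∀ a, I.h a ∈ X → I.h a ∉ ({v} : Set V) := fun a ha h => hv (h ▸ ha)
  refine ⟨c, fun a ha => (g1 a (hh a ha)).trans (e1 a ha), fun i Y hY _ => ?_⟩
  rcases tight_cases hX hY with h | h | ⟨n1, n2⟩
  · exact (s1 i Y hY (Or.inr h)).imp id fun ⟨a, ha, h3, h4⟩ =>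
      ⟨a, ha, (g3 Y hY.1 h a ha).trans h3, h4⟩
  · rcases s2 i Y hY (Or.inl h) with ⟨h3, -⟩ | ⟨a, ha, h3, h4⟩
    · obtain ⟨y, hy⟩ := hX.2.2
      exact absurd (h3 (h hy)) hy
    · exact Or.inr ⟨a, ha, (g4 Y hY.1 h a ha).trans h3, hne a h4⟩
  · rcases s2 i _ n1 (Or.inr Set.inter_subset_right) with ⟨-, h3⟩ | ⟨a, ha, h3, h4⟩
    · rcases s1 i _ n2 (Or.inl Set.subset_union_right) with ⟨h4, h5⟩ | ⟨a, ha, h4, h5⟩
      · exact Or.inl ⟨h4.mono_right Set.subset_union_left, fun a ha h6 =>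
          (h5 a ha h6).elim id fun h7 => (h3 a ⟨h7, hh a ha⟩ ((e1 a ha).trans h6)).1⟩
      · have h6 : I.h a ∉ X := fun h => ha.2 (Or.inr h)
        exact Or.inr ⟨a, ⟨ha.1.elim id fun h7 => (h3 a ⟨h7, h6⟩ h4).1, fun h => ha.2 (Or.inl h)⟩,
          (g1 a h6).trans h4, h5⟩
    · exact Or.inr ⟨a, ⟨ha.1.1, fun h => ha.2 ⟨h, h4⟩⟩, (g2 a ha.1.2).trans h3, hne a h4⟩

theorem tightB (ih : IH g N A K (Nat.card V)) (hI : I.Hyp g N) (hN : 0 < N) {v : V} {π : A → K}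
    (hp : I.Pre N {v} π) (hX : I.NT X) (hd : (I.Ent X).ncard ≤ N) (h1 : X.Nontrivial)
    (h2 : Xᶜ.Nontrivial) (hv : v ∈ X) : I.Sol {v} π fun _ => True := by
  obtain ⟨c2, e2, s2⟩ := quot ih hI hX.2.2 (tight_lt h2) (hI.con_compl hN hX hd)
    (Or.inr ⟨v, not_not.2 hv, rfl⟩) hp
  obtain ⟨c1, e1, s1⟩ := quot_src ih hI hN hX hd (tight_lt h1) (π := c2) fun i => by
    rcases s2 i X hX (Or.inr disjoint_compl_left) with ⟨h, -⟩ | ⟨a, ha, h, -⟩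
    · exact absurd hv (Set.disjoint_singleton_left.1 h)
    · exact ⟨a, ha, h⟩
  obtain ⟨c, g1, g2, g3, g4⟩ := tight_glue hI hX.1 e1
  have hs : Xᶜ ⊆ {v}ᶜ := Set.compl_subset_compl.2 (Set.singleton_subset_iff.2 hv)
  refine ⟨c, fun a ha => (g4 _ hp.nt.1 hs a ha).trans (e2 a ha), fun i Y hY _ => ?_⟩
  rcases tight_cases hX hY with h | h | ⟨n1, n2⟩
  · rcases s1 i Y hY (Or.inr h) with ⟨h3, -⟩ | ⟨a, ha, h3, -⟩
    · exact absurd (h3 hv) (Set.disjoint_left.1 h hv)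
    · refine Or.inr ⟨a, ha, (g3 Y hY.1 h a ha).trans h3, fun h4 => ?_⟩
      rcases hI.leave hX.1 a with ⟨x, hx, h5⟩ | ⟨y, hy, h5⟩
      · exact Set.disjoint_left.1 h hx (hY.1.le h5 ha.1)
      · exact hp.nt.1.le h5 (hs hy) h4
  · exact (s2 i Y hY (Or.inl h)).imp id fun ⟨a, ha, h3, h4⟩ =>
      ⟨a, ha, (g4 Y hY.1 h a ha).trans h3, h4⟩
  · rcases s1 i _ n2 (Or.inl Set.subset_union_right) with ⟨-, h3⟩ | ⟨a, ha, h3, h4⟩
    · rcases s2 i _ n1 (Or.inr (disjoint_compl_left.mono_right Set.inter_subset_right)) with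
        ⟨h4, h5⟩ | ⟨a, ha, h4, h5⟩
      · exact Or.inl ⟨Set.disjoint_singleton_left.2 fun h =>
          Set.disjoint_singleton_left.1 h4 ⟨h, hv⟩, fun a ha h6 => (h5 a ha h6).1⟩
      · refine Or.inr ⟨a, ⟨ha.1.1, fun h => ?_⟩, (g2 a ha.1.2).trans h4, h5⟩
        exact h3 a ⟨ha.1.2, fun h' => ha.2 ⟨h, h'⟩⟩ h4 (Or.inl h)
    · have h6 : I.h a ∉ X := fun h => ha.2 (Or.inr h)
      exact Or.inr ⟨a, ⟨ha.1.resolve_right h4, fun h => ha.2 (Or.inl h)⟩, (g1 a h6).trans h3,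
        fun h => h6 (h ▸ hv)⟩

theorem plain [Finite K] [Nonempty K] (ih : ∀ N', N ≤ N' → IH g N' A K (Nat.card V + 1))
    (hI : I.Hyp g N) (hK : Nat.card K ≤ N) :
    ∃ c : A → K, ∀ i Y, I.NT Y → ∃ a ∈ I.Ent Y, c a = i := by
  by_cases hne : ∃ Y, I.NT Y
  swap
  · exact ⟨fun _ => Classical.arbitrary K, fun i Y hY => absurd ⟨Y, hY⟩ hne⟩
  obtain ⟨X, hX, hmin⟩ := Set.exists_min_image {Y | I.NT Y} (fun Y => (I.Ent Y).ncard)
    (Set.toFinite _) hne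
  have hX : I.NT X := hX
  have hN := hI.strong X hX
  have hI' : I.Hyp g (I.Ent X).ncard := ⟨hmin, hI.loc, hI.cl⟩
  have hpos : 0 < (I.Ent X).ncard := Nat.card_pos.trans_le (hK.trans hN)
  obtain ⟨π, hπ⟩ : ∃ π : A → K, ∀ i, ∃ a ∈ I.Ent X, π a = i := by
    have := Fintype.ofFinite K
    have := Fintype.ofFinite (I.Ent X)
    obtain ⟨e⟩ := Function.Embedding.nonempty_of_card_le (α := K) (β := I.Ent X) (by
      rw [← Nat.card_eq_fintype_card, ← Nat.card_eq_fintype_card]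
      exact hK.trans hN)
    exact ⟨Function.invFun fun i => (e i : A), fun i => ⟨e i, (e i).2,
      Function.leftInverse_invFun (Subtype.val_injective.comp e.injective) i⟩⟩
  obtain ⟨c1, e1, s1⟩ := quot_src (ih _ hN) hI' hpos hX le_rfl
    (Nat.lt_add_of_pos_right ((Set.ncard_pos (Set.toFinite _)).2 hX.2.1)) hπ
  obtain ⟨c2, e2, s2⟩ := quot_snk (ih _ hN) hI' hpos hX le_rfl
    (Nat.lt_add_of_pos_right ((Set.ncard_pos (Set.toFinite _)).2 hX.2.2)) hπ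
  obtain ⟨c, g1, g2, g3, g4⟩ := tight_glue hI hX.1 fun a ha => (e1 a ha).trans (e2 a ha).symm
  refine ⟨c, fun i Y hY => ?_⟩
  rcases tight_cases hX hY with h | h | ⟨n1, n2⟩
  · rcases s1 i Y hY (Or.inr h) with ⟨h3, -⟩ | ⟨a, ha, h3, -⟩
    · obtain ⟨x, hx⟩ := hX.2.1
      exact absurd (h3 hx) (Set.disjoint_left.1 h hx)
    · exact ⟨a, ha, (g3 Y hY.1 h a ha).trans h3⟩
  · rcases s2 i Y hY (Or.inl h) with ⟨h3, -⟩ | ⟨a, ha, h3, -⟩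
    · obtain ⟨y, hy⟩ := hX.2.2
      exact absurd (h3 (h hy)) hy
    · exact ⟨a, ha, (g4 Y hY.1 h a ha).trans h3⟩
  · rcases s2 i _ n1 (Or.inr Set.inter_subset_right) with ⟨-, h3⟩ | ⟨a, ha, h3, h4⟩
    · rcases s1 i _ n2 (Or.inl Set.subset_union_right) with ⟨-, h5⟩ | ⟨a, ha, h4, h5⟩
      · obtain ⟨a, ha, h6⟩ := hπ i
        exact ⟨a, ⟨(h3 a ha h6).1, fun h => h5 a ha h6 (Or.inl h)⟩,
          ((g2 a ha.1).trans (e2 a ha)).trans h6⟩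
      · exact ⟨a, ⟨ha.1.resolve_right h5, fun h => ha.2 (Or.inl h)⟩,
          (g1 a fun h => ha.2 (Or.inr h)).trans h4⟩
    · exact ⟨a, ⟨ha.1.1, fun h => ha.2 ⟨h, h4⟩⟩, (g2 a ha.1.2).trans h3⟩

end Pool.Agent.Lib.MP_cbe08d_co.Mn.Ins
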