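import Pool.Agent.Lib.MP_cbe08d_co.Mn.Dim

/-! The grid lies on the torus; orders of dimension three. -/

set_option autoImplicit false

namespace Pool.Agent.Lib.MP_cbe08d_co.Mn

open Equiv Pool.Agent.Lib.MP_77dff5_pr

section
variable (Z : Type) [CommRing Z]

def tstep : Fin 4 → Z × Z := ![(1, 0), (0, 1), (-1, 0), (0, -1)]

def toff : Bool → Fin 4 → Z × Z :=
  fun ε => cond ε ![(0, 0), (0, 1), (-1, 1), (-1, 0)] ![(0, 0), (-1, 0), (-1, -1), (0, -1)]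

def tsig : Perm ((Z × Z) × Fin 4 × Bool) where
  toFun x := (x.1, cond x.2.2 (x.2.1 + 1) (x.2.1 + 3), x.2.2)
  invFun x := (x.1, cond x.2.2 (x.2.1 + 3) (x.2.1 + 1), x.2.2)
  left_inv := by
    rintro ⟨u, i, _ | _⟩ <;> fin_cases i <;> rfl
  right_inv := by
    rintro ⟨u, i, _ | _⟩ <;> fin_cases i <;> rfl

theorem talp_inv : Function.Involutive fun x : (Z × Z) × Fin 4 × Bool =>
    ((x.1 + tstep Z x.2.1, x.2.1 + 2, x.2.2) : (Z × Z) × Fin 4 × Bool) := by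
  rintro ⟨⟨a, b⟩, i, ε⟩
  fin_cases i <;> simp [tstep]

def talp : Perm ((Z × Z) × Fin 4 × Bool) := (talp_inv Z).toPerm

theorem tmir_inv : Function.Involutive fun x : (Z × Z) × Fin 4 × Bool =>
    ((x.1, x.2.1, !x.2.2) : (Z × Z) × Fin 4 × Bool) := by
  rintro ⟨u, i, _ | _⟩ <;> rfl

def tmir : Perm ((Z × Z) × Fin 4 × Bool) := (tmir_inv Z).toPerm

theorem tsig_ap (x : (Z × Z) × Fin 4 × Bool) :
    tsig Z x = (x.1, cond x.2.2 (x.2.1 + 1) (x.2.1 + 3), x.2.2) := rfl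

theorem talp_ap (x : (Z × Z) × Fin 4 × Bool) :
    talp Z x = (x.1 + tstep Z x.2.1, x.2.1 + 2, x.2.2) := rfl

theorem tmir_ap (x : (Z × Z) × Fin 4 × Bool) : tmir Z x = (x.1, x.2.1, !x.2.2) := rfl

theorem trot : IsRot (fun x : (Z × Z) × Fin 4 × Bool => (x.1, x.2.2)) (tsig Z) := by
  refine fun x y => ⟨permA_inv (fun x : (Z × Z) × Fin 4 × Bool => (x.1, x.2.2)) fun _ => rfl, ?_⟩
  have k : ∀ u i ε, (tsig Z).SameCycle (u, 0, ε) (u, i, ε) := fun u i ε => by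
    have k0 : (tsig Z).SameCycle (u, 0, ε) (u, 0, ε) := .refl _ _
    have k1 := k0.apply_right
    have k2 := k1.apply_right
    have k3 := k2.apply_right
    simp only [tsig_ap] at k1 k2 k3
    cases ε <;> fin_cases i
    exacts [k0, k3, k2, k1, k0, k1, k2, k3]
  obtain ⟨u, i, ε⟩ := x
  obtain ⟨w, j, δ⟩ := y
  intro e
  obtain ⟨rfl, rfl⟩ := Prod.mk.inj e
  exact (k u i ε).symm.trans (k u j ε)

end

theorem tor_df (Z : Type) [CommRing Z] [Finite Z] (hZ : Function.Surjective (Nat.cast : ℕ → Z)) :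
    Sf.Df 4 (tsig Z) (talp Z) := by
  have c0 : Nat.card ((Z × Z) × Fin 4 × Bool) = 8 * Nat.card (Z × Z) := by
    rw [Nat.card_prod (Z × Z), Nat.card_prod (Fin 4), Nat.card_fin]
    simp [mul_comm]
  have c1 : Nat.card ((Z × Z) × Bool) = 2 * Nat.card (Z × Z) := by
    rw [Nat.card_prod (Z × Z)]
    simp [mul_comm]
  have e1 : ncyc (tsig Z) = 2 * Nat.card (Z × Z) :=
    (permA_ncyc_eq _ (fun p => ⟨(p.1, 0, p.2), rfl⟩) (trot Z)).trans c1
  have e2 := Sf.ncyc_invol (α := talp Z) (talp_inv Z) {x | x.2.1 < 2} (by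
    rintro ⟨u, i, ε⟩
    change i + 2 < 2 ↔ ¬i < 2
    revert i
    decide)
  have e3 : 2 * Nat.card (Z × Z) ≤ ncyc (tsig Z * talp Z) := by
    rw [← c1]
    refine Nat.card_le_card_of_surjective (Quotient.lift
      (fun x : (Z × Z) × Fin 4 × Bool => (x.1 + toff Z x.2.2 x.2.1, x.2.2))
      fun x y h => permA_inv (π := tsig Z * talp Z)
        (fun x : (Z × Z) × Fin 4 × Bool => (x.1 + toff Z x.2.2 x.2.1, x.2.2)) ?_ h) fun p => ⟨Quotient.mk _ (p.1, 0, p.2), ?_⟩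
    · rintro ⟨⟨a, b⟩, i, _ | _⟩ <;> fin_cases i <;>
        simp [tsig_ap, talp_ap, tstep, toff]
    · obtain ⟨u, _ | _⟩ := p <;> simp [toff]
  have e4 : ncomp (tsig Z) (talp Z) ≤ 2 := by
    let q : (Z × Z) × Fin 4 × Bool → Quot fun a b => b = tsig Z a ∨ b = talp Z a := Quot.mk _
    have q1 : ∀ u i j ε, q (u, i, ε) = q (u, j, ε) := fun u i j ε =>
      Quot.eqvGen_sound (Sf.emb1_left ((trot Z _ _).2 rfl))
    have q2 : ∀ u i ε, q (u + tstep Z i, 0, ε) = q (u, 0, ε) := fun u i ε =>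
      (q1 _ _ (i + 2) _).trans ((show q (u, i, ε) = q (u + tstep Z i, i + 2, ε) from
        Quot.sound (Or.inr rfl)).symm.trans (q1 u i 0 ε))
    have q3 : ∀ (a b : ℕ) ε, q (((a : Z), (b : Z)), 0, ε) = q (0, 0, ε) := fun a b ε => by
      induction a with
      | zero =>
        induction b with
        | zero => simp only [Nat.cast_zero]; rfl
        | succ b ih => simpa [tstep] using (q2 ((0 : ℕ), (b : ℕ)) 1 ε).trans ih
      | succ a ih => simpa [tstep] using (q2 ((a : ℕ), (b : ℕ)) 0 ε).trans ih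
    refine le_trans (Nat.card_le_card_of_surjective (fun ε : Bool => q (0, 0, ε)) ?_) (by simp)
    rintro ⟨⟨a, b⟩, i, ε⟩
    obtain ⟨a, rfl⟩ := hZ a
    obtain ⟨b, rfl⟩ := hZ b
    exact ⟨ε, (q3 a b ε).symm.trans (q1 _ _ i _)⟩
  unfold Sf.Df
  omega

theorem sp_box (m : ℕ) :
    Sp 7 (grid.comap (Subtype.val : {u : ℕ × ℕ // u.1 < m ∧ u.2 < m} → ℕ × ℕ)) := by
  have : Finite {u : ℕ × ℕ // u.1 < m ∧ u.2 < m} :=
    ((Set.finite_lt_nat m).prod (Set.finite_lt_nat m)).to_subtype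
  refine sp_of_eg (γ := 2) (Sf.eg_of_wit (a := 4) (o := True) (σ := tsig (ZMod (m + 1)))
    (α := talp _) (c := tmir _) (ν := fun x => (x.1, x.2.2)) (Or.inr ⟨le_rfl, trivial⟩)
    ⟨trot _, talp_inv _, tmir_inv _, ?_, fun _ => rfl, fun _ => rfl,
      tor_df _ ZMod.natCast_zmod_surjective, fun _ _ => rfl⟩
    (fun u => ((u.1.1 : ZMod (m + 1)), (u.1.2 : ZMod (m + 1)))) ?_ ?_) (by norm_num) (by norm_num)
  · rintro ⟨u, i, _ | _⟩ <;> simp only [tsig_ap, tmir_ap] <;> fin_cases i <;> rfl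
  · rintro ⟨⟨a, b⟩, h1, h2⟩ ⟨⟨a', b'⟩, h3, h4⟩ e
    obtain ⟨e1, e2⟩ := Prod.mk.inj e
    rw [ZMod.natCast_eq_natCast_iff'] at e1 e2
    dsimp only at e1 e2 h1 h2 h3 h4
    rw [Nat.mod_eq_of_lt (by omega), Nat.mod_eq_of_lt (by omega)] at e1 e2
    exact Subtype.ext (Prod.ext e1 e2)
  · rintro ⟨⟨a, b⟩, h1⟩ ⟨⟨a', b'⟩, h2⟩ e
    replace e : grid.Adj (a, b) (a', b') := e
    obtain ⟨-, (k | k) | k | k⟩ := (SimpleGraph.fromRel_adj _ _ _).1 e <;>
      obtain ⟨rfl, rfl⟩ := Prod.mk.inj k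
    · exact ⟨(_, 0, true), rfl, by simp [talp_ap, tstep]⟩
    · exact ⟨(_, 1, true), rfl, by simp [talp_ap, tstep]⟩
    · exact ⟨(_, 2, true), rfl, by simp [talp_ap, tstep]⟩
    · exact ⟨(_, 3, true), rfl, by simp [talp_ap, tstep]⟩

theorem su_three {V : Type} [Finite V] {R : V → V → Prop} {c : V → Fin 3 → ℝ}
    (h : ∀ x y, R x y ↔ c x ≤ c y) : Su 7 R := by
  obtain ⟨p, p1, p2⟩ := exists_rank fun x => c x 0
  obtain ⟨q, q1, q2⟩ := exists_rank fun x => c x 1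
  exact su_grid (s := fun x => c x 2) p1 q1
    (fun x y => by rw [h, p2, q2, Pi.le_def, Fin.forall_fin_succ, Fin.forall_fin_two]; rfl)
    (sp_box _)

theorem cn_iff {T : Type} {g : SimpleGraph T} {S : Set T} :
    (g.induce S).Connected ↔ S.Nonempty ∧ Cn g S := by
  rw [SimpleGraph.connected_iff, Set.nonempty_coe_sort, and_comm]
  refine and_congr_right' ⟨fun h x hx y hy => ?_, fun h x y => ?_⟩
  · exact Relation.ReflTransGen.lift Subtype.val (fun p q k => ⟨k, p.2, q.2⟩) _ _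
      ((SimpleGraph.reachable_iff_reflTransGen _ _).1 (h ⟨x, hx⟩ ⟨y, hy⟩))
  · exact (SimpleGraph.reachable_iff_reflTransGen _ _).2 (Relation.ReflTransGen.mono
      (fun _ _ k => k.1) _ _ (h.sub (P := (· ∈ S)) (fun _ k => k) x x.2 y y.2))

theorem reach_swap {V A : Type} {tail head : A → V} {x y : V} :
    Relation.ReflTransGen (fun x y => ∃ a, head a = x ∧ tail a = y) x y ↔
      Relation.ReflTransGen (fun x y => ∃ a, tail a = x ∧ head a = y) y x := by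
  rw [← Relation.reflTransGen_swap]
  simp only [Function.swap_def, and_comm]

end Pool.Agent.Lib.MP_cbe08d_co.Mn
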